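import Pool.Agent.Lib.MP_4d8715_gt.KR.C.Defs

/-! # Bounds of terms, cofinality (module C-COF) -/

namespace Pool.Agent.Lib.MP_4d8715_gt.KR

open Order

theorem exists_below (a : Tm) : ∃ ζ : Idx, a.Below ζ := by
  induction a with
  | bot => exact ⟨0, trivial⟩
  | atom ξ σ => exact ⟨succ ξ, lt_succ ξ⟩
  | neg a ih => exact ih
  | sup f ih =>
    choose g hg using ih
    exact ⟨⨆ n, g n, fun n => (hg n).mono (Ordinal.le_iSup g n)⟩

theorem exists_below_name (x : Nm) : ∃ ζ : Idx, ∀ j, (x j).Below ζ :=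
  exists_below (.sup x)

theorem exists_below_fun (l : ℕ → ℕ → Tm) : ∃ ζ : Idx, ∀ k v, (l k v).Below ζ :=
  exists_below (.sup fun k => .sup (l k))

theorem below_of_not_cofOmega {η : Idx} (h0 : η ≠ 0) (hlim : ∀ ξ < η, succ ξ < η)
    (h : ¬ CofOmega η) (a : Tm) (ha : a.Below η) : ∃ ξ < η, a.Below ξ := by
  induction a with
  | bot => exact ⟨0, pos_iff_ne_zero.mpr h0, trivial⟩
  | atom ξ σ => exact ⟨succ ξ, hlim ξ ha, lt_succ ξ⟩
  | neg a ih => exact ih ha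
  | sup f ih =>
    choose g hg hgf using fun n => ih n (ha n)
    by_contra hcon
    refine h ⟨g, hg, fun ξ hξ => ?_⟩
    by_contra hn
    push Not at hn
    exact hcon ⟨ξ, hξ, fun n => (hgf n).mono (hn n).le⟩

theorem below_name_of_not_cofOmega {η : Idx} (h0 : η ≠ 0) (hlim : ∀ ξ < η, succ ξ < η)
    (h : ¬ CofOmega η) (x : Nm) (hx : ∀ j, (x j).Below η) : ∃ ξ < η, ∀ j, (x j).Below ξ :=
  below_of_not_cofOmega h0 hlim h (.sup x) hx

theorem below_fun_of_not_cofOmega {η : Idx} (h0 : η ≠ 0) (hlim : ∀ ξ < η, succ ξ < η)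
    (h : ¬ CofOmega η) (l : ℕ → ℕ → Tm) (hl : ∀ k v, (l k v).Below η) :
    ∃ ξ < η, ∀ k v, (l k v).Below ξ :=
  below_of_not_cofOmega h0 hlim h (.sup fun k => .sup (l k)) hl

/-- a monotone cofinal sequence above a given `β < η` -/
theorem exists_mono_seq {η β : Idx} (h : CofOmega η) (hβ : β < η) :
    ∃ f : ℕ → Idx, Monotone f ∧ (∀ n, β ≤ f n ∧ f n < η) ∧ ∀ ξ < η, ∃ n, ξ ≤ f n := by
  obtain ⟨g, hg, hcof⟩ := h
  let f : ℕ → Idx := fun n => Nat.rec (max β (g 0)) (fun n x => max x (g (n + 1))) n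
  have hf0 : f 0 = max β (g 0) := rfl
  have hfs : ∀ n, f (n + 1) = max (f n) (g (n + 1)) := fun n => rfl
  have hmono : Monotone f := monotone_nat_of_le_succ fun n => by rw [hfs]; exact le_max_left _ _
  refine ⟨f, hmono, fun n => ⟨?_, ?_⟩, fun ξ hξ => ?_⟩
  · exact ((le_max_left β (g 0)).trans hf0.ge).trans (hmono (Nat.zero_le n))
  · induction n with
    | zero => rw [hf0]; exact max_lt hβ (hg 0)
    | succ n ih => rw [hfs]; exact max_lt ih (hg (n + 1))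
  · obtain ⟨n, hn⟩ := hcof ξ hξ
    refine ⟨n, hn.trans ?_⟩
    cases n with
    | zero => rw [hf0]; exact le_max_right _ _
    | succ n => rw [hfs]; exact le_max_right _ _

theorem trivOn_seq {η : Idx} (f : ℕ → Idx) (hmono : Monotone f) (hlim : ∀ ξ < η, succ ξ < η)
    (hcof : ∀ ξ < η, ∃ n, ξ ≤ f n) (p : Cond) : ∃ n, ∀ n' ≥ n, TrivOn (f n') η p := by
  have hfin : ({ξ | p.st ξ ≠ Stem.nil} ∩ Set.Iio η).Finite := p.fin.subset Set.inter_subset_left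
  choose! g hg using fun ξ (hξ : ξ ∈ {ξ | p.st ξ ≠ Stem.nil} ∩ Set.Iio η) =>
    hcof (succ ξ) (hlim ξ hξ.2)
  obtain ⟨n, hn⟩ := (hfin.image g).bddAbove
  refine ⟨n, fun n' hn' ξ h1 h2 => ?_⟩
  have h3 : p.st ξ = Stem.nil := by
    by_contra hne
    have hm : ξ ∈ {ξ | p.st ξ ≠ Stem.nil} ∩ Set.Iio η := ⟨hne, h2⟩
    have h4 : g ξ ≤ n := hn (Set.mem_image_of_mem g hm)
    have h5 := (hg ξ hm).trans (hmono (h4.trans hn'))
    exact absurd ((lt_succ ξ).trans_le h5) (not_lt.mpr h1)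
  exact ⟨h3, Finset.card_eq_zero.mp (extend_F_empty h3)⟩

/-- `0`, successors and limits -/
theorem idx_cases (η : Idx) : η = 0 ∨ (∃ ζ, η = succ ζ) ∨ (η ≠ 0 ∧ ∀ ξ < η, succ ξ < η) := by
  by_cases h0 : η = 0
  · exact Or.inl h0
  by_cases hs : ∃ ζ, η = succ ζ
  · exact Or.inr (Or.inl hs)
  · refine Or.inr (Or.inr ⟨h0, fun ξ hξ => lt_of_le_of_ne (succ_le_of_lt hξ) fun h => ?_⟩)
    exact hs ⟨ξ, h.symm⟩

end Pool.Agent.Lib.MP_4d8715_gt.KR
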