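import Pool.Agent.Lib.MP_4d8715_gt.KR.C.Bound
import Pool.Agent.Lib.MP_4d8715_gt.KR.C.Cof

/-! # (B), limit step (module C-BLIM) -/

namespace Pool.Agent.Lib.MP_4d8715_gt.KR

open Order

theorem bound_below {ζ η : Idx} (hζ : ζ ≤ η) (E : ℕ → ℕ → Tm) (h : BoundName η E) :
    ∃ E' : ℕ → ℕ → Tm, BoundName ζ E' ∧ ∀ p : Cond, TrivOn ζ η p →
      ∀ (k v : ℕ) (p1 : Cond), Le ⊤ p1 p → Frc (ζ : WithTop Idx) (E' k v) p1 →
        ∃ p', Le ⊤ p' p ∧ Le (ζ : WithTop Idx) p' p1 ∧ Frc ⊤ (E k v) p' := by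
  have hz : (ζ : WithTop Idx) ≤ (η : WithTop Idx) := WithTop.coe_le_coe.mpr hζ
  have hloc : ∀ k v p, Frc ⊤ (E k v) p ↔ Frc (η : WithTop Idx) (E k v) p := fun k v p =>
    frc_local (h.below k v) le_top p
  have htriv : ∀ (q : Cond) (ξ : Idx), ζ ≤ ξ →
      (glue ζ q Cond.triv).st ξ = Stem.nil ∧ (glue ζ q Cond.triv).F ξ = ∅ := by
    intro q ξ hξ
    rw [glue_st_ge _ _ hξ, glue_F_ge _ _ hξ]
    exact ⟨rfl, rfl⟩
  obtain ⟨E', hE', hfrc⟩ := boundOfSets ζ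
    (fun k v => {r | ∀ r', Le (ζ : WithTop Idx) r' r →
      (∀ ξ, ζ ≤ ξ → r'.st ξ = Stem.nil ∧ r'.F ξ = ∅) → ∃ e, Le ⊤ e r' ∧ Frc ⊤ (E k v) e})
    (fun k v r hr q hq r' hr' ht => hr r' (hr'.trans hq) ht)
    (fun k v r hr r' hr' ht => by
      obtain ⟨e, h1, h2⟩ := hr r' hr' ht
      refine ⟨e, h1, ?_⟩
      rw [hloc] at h2 ⊢
      exact h.mono k v e h2)
    (fun k p => by
      obtain ⟨e1, he1, v, hv⟩ := h.dense k (glue ζ p Cond.triv)
      refine ⟨glue η e1 (glue ζ p Cond.triv), ?_, v, fun r' hr' ht => ?_⟩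
      · exact (((glue_le_left η e1 _).mono hz).trans (he1.mono hz)).trans (glue_le_left ζ p _)
      · refine ⟨glue ζ r' (glue η e1 (glue ζ p Cond.triv)), Le.of_bound ht (glue_le_left ζ r' _), ?_⟩
        rw [hloc]
        exact Frc.mono hv (((glue_le ⊤ hr').mono le_top).trans (glue_le_left η e1 _)))
  refine ⟨E', hE', fun p ht k v p1 hp1 hE1 => ?_⟩
  obtain ⟨r3, hr3, hrD⟩ := (hfrc k v p1).mp hE1 _ (glue_le_left ζ p1 Cond.triv)
  obtain ⟨e, he, hEe⟩ := hrD (glue ζ r3 Cond.triv) (glue_le_left ζ r3 _) (htriv r3)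
  have hep1 : Le (ζ : WithTop Idx) e p1 :=
    (((he.mono le_top).trans (glue_le_left ζ r3 _)).trans hr3).trans (glue_le_left ζ p1 _)
  have hep : Le (η : WithTop Idx) e p := by
    intro ξ hξ
    rcases lt_or_ge ξ ζ with hlt | hge
    · exact (hep1.trans (hp1.mono le_top)) ξ (WithTop.coe_lt_coe.mpr hlt)
    · have := ht ξ hge (WithTop.coe_lt_coe.mp hξ)
      rw [clause_iff, this.1, this.2]
      refine ⟨⟨List.nil_prefix, List.nil_prefix⟩, Finset.empty_subset _, fun L S _ _ x hx => ?_⟩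
      exact absurd hx (Finset.notMem_empty x)
  refine ⟨glue η e p, glue_le ⊤ hep, ((glue_le_left η e p).mono hz).trans hep1, ?_⟩
  rw [hloc] at hEe ⊢
  exact Frc.mono hEe (glue_le_left η e p)

theorem bound_limit {β η : Idx} (hβ : β < η) (hlim : ∀ ξ < η, succ ξ < η) (hcof : CofOmega η)
    (ih : ∀ ζ < η, β ≤ ζ → ∀ E, BoundName ζ E → ∃ L, BoundName β L ∧ Dominates β E L)
    (E : ℕ → ℕ → Tm) (h : BoundName η E) : ∃ L, BoundName β L ∧ Dominates β E L := by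
  obtain ⟨f, hmono, hf, hcofin⟩ := exists_mono_seq hcof hβ
  choose E' hE' hred using fun n => bound_below (hf n).2.le E h
  choose Ls hLs hdom using fun n => ih (f n) (hf n).2 (hf n).1 (E' n) (hE' n)
  obtain ⟨L, hL, hLfrc⟩ := conj_bound β Ls hLs
  refine ⟨L, hL, fun p => ?_⟩
  obtain ⟨n, hn⟩ := trivOn_seq f hmono hlim hcofin p
  obtain ⟨m, hm⟩ := hdom n p
  refine ⟨max n m, fun k hk v r hr hLr => ?_⟩
  obtain ⟨p1, h1, h2, h3⟩ := hm k ((le_max_right _ _).trans hk) v r hr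
    (hLfrc n k v r ((le_max_left _ _).trans hk) hLr)
  obtain ⟨p', g1, g2, g3⟩ := hred n p (hn n le_rfl) k v p1 h1
    ((frc_local ((hE' n).below k v) le_top p1).mp h3)
  exact ⟨p', g1, (g2.mono (WithTop.coe_le_coe.mpr (hf n).1)).trans h2, g3⟩

end Pool.Agent.Lib.MP_4d8715_gt.KR
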