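import Pool.Agent.Lib.MP_4d8715_gt.KR.C.Defs

/-! # Compactness (module C-COMPACT), the key lemma -/

namespace Pool.Agent.Lib.MP_4d8715_gt.KR

open Order

theorem sync {J : Type} [Finite J] (ζ : Idx) (D : J → Cond → Prop)
    (hD : ∀ i p, ∃ p', Le ⊤ p' p ∧ D i p')
    (hglue : ∀ i p r, D i p → Le (ζ : WithTop Idx) r p → D i (glue ζ r p))
    (g : Cond) (e : J → Cond) (h : Common ζ g e) :
    ∃ g' e', Common ζ g' e' ∧ Le (ζ : WithTop Idx) g' g ∧ (∀ i, Le ⊤ (e' i) (e i)) ∧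
      ∀ i, D i (e' i) := by
  classical
  haveI := Fintype.ofFinite J
  have key : ∀ s : Finset J, ∃ g' e', Common ζ g' e' ∧ Le (ζ : WithTop Idx) g' g ∧
      (∀ i, Le ⊤ (e' i) (e i)) ∧ ∀ i ∈ s, D i (e' i) := by
    intro s
    induction s using Finset.induction_on with
    | empty => exact ⟨g, e, h, Le.refl _ g, fun i => Le.refl _ _, fun i hi =>
        absurd hi (Finset.notMem_empty i)⟩
    | insert a s ha ih =>
      obtain ⟨g', e', h1, h2, h3, h4⟩ := ih
      obtain ⟨p', hp', hDp⟩ := hD a (e' a)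
      have hpe : Le (ζ : WithTop Idx) p' (e' a) := hp'.mono le_top
      have hpg : Le (ζ : WithTop Idx) p' g' := hpe.trans (h1 a).2
      have hpi : ∀ i, Le (ζ : WithTop Idx) p' (e' i) := fun i => hpg.trans (h1 i).1
      refine ⟨p', fun i => if i = a then p' else glue ζ p' (e' i), ?_, hpg.trans h2, ?_, ?_⟩
      · intro i
        by_cases hi : i = a
        · simp only [hi, if_true]
          exact ⟨Le.refl _ _, Le.refl _ _⟩
        · simp only [hi, if_false]
          exact ⟨left_le_glue ζ p' (e' i), glue_le_left ζ p' (e' i)⟩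
      · intro i
        by_cases hi : i = a
        · simp only [hi, if_true]
          exact hp'.trans (h3 a)
        · simp only [hi, if_false]
          exact (glue_le ⊤ (hpi i)).trans (h3 i)
      · intro i hi
        by_cases hia : i = a
        · simp only [hia, if_true]
          exact hDp
        · simp only [hia, if_false]
          exact hglue i (e' i) p' (h4 i ((Finset.mem_insert.mp hi).resolve_left hia)) (hpi i)
  obtain ⟨g', e', h1, h2, h3, h4⟩ := key Finset.univ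
  exact ⟨g', e', h1, h2, h3, fun i => h4 i (Finset.mem_univ i)⟩

theorem common_glue {J : Type} {ζ : Idx} {g r : Cond} {e : J → Cond} (h : Common ζ g e)
    (hr : Le (ζ : WithTop Idx) r g) :
    Common ζ r (fun i => glue ζ r (e i)) ∧ ∀ i, Le ⊤ (glue ζ r (e i)) (e i) :=
  ⟨fun i => ⟨left_le_glue ζ r (e i), glue_le_left ζ r (e i)⟩,
    fun i => glue_le ⊤ (hr.trans (h i).1)⟩

theorem compact_cover {A : Finset Nm} {n : ℕ} (hA : A.card ≤ n) :
    ∃ t : Fin n → Nm, (∀ x ∈ A, ∃ a, t a = x) ∧ ∀ a, t a ∈ A ∨ t a = fun _ => Tm.bot := by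
  refine ⟨fun a => A.toList.getD a (fun _ => Tm.bot), fun x hx => ?_, fun a => ?_⟩
  · obtain ⟨i, hi, hix⟩ := List.getElem_of_mem (Finset.mem_toList.mpr hx)
    have hin : i < n := by
      rw [Finset.length_toList] at hi
      exact hi.trans_le hA
    refine ⟨⟨i, hin⟩, ?_⟩
    exact (List.getD_eq_getElem _ _ hi).trans hix
  · by_cases ha : (a : ℕ) < A.toList.length
    · left
      have h1 : A.toList.getD (a : ℕ) (fun _ => Tm.bot) = A.toList[(a : ℕ)] :=
        List.getD_eq_getElem _ _ ha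
      have h2 : A.toList[(a : ℕ)] ∈ A := Finset.mem_toList.mp (List.getElem_mem ha)
      rw [← h1] at h2
      exact h2
    · right
      exact List.getD_eq_default _ _ (not_lt.mp ha)

/-- the bad names -/
def CompactBad {J : Type} (ζ : Idx) (q : Cond) (Goal : ℕ → (J → Cond) → Prop) (σ : Stem) (n : ℕ)
    (v : ℕ) (g0 : Cond) (t : Fin n → Nm) : Prop :=
  ∀ (g : Cond) (e : J → Cond), Common ζ g e →
    (∀ i, Le ((succ ζ : Idx) : WithTop Idx) (e i) q) → (∀ i, Le (ζ : WithTop Idx) (e i) g0) →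
    (∀ i, σ ≤ (e i).st ζ) →
    (∀ i (L : ℕ) (S : List (List Bool)), σ.s.length ≤ L → ((e i).st ζ).s[L]? = some S →
      ∀ a, Cap (ζ : WithTop Idx) (t a) L S (e i)) →
    (∀ i, ((e i).F ζ).card + n ≤ ((e i).st ζ).s.length) → ¬ Goal v e

theorem compactness (ζ : Idx) (q : Cond) {J : Type} [Finite J] [Nonempty J]
    (Goal : ℕ → (J → Cond) → Prop)
    (mono : ∀ v v' e, v ≤ v' → Goal v e → Goal v' e)
    (str : ∀ v e e', (∀ i, Le ((succ ζ : Idx) : WithTop Idx) (e' i) (e i)) → Goal v e → Goal v e')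
    (dense : ∀ u, Le ((succ ζ : Idx) : WithTop Idx) u q →
      ∃ v g e, Common ζ g e ∧ (∀ i, Le ((succ ζ : Idx) : WithTop Idx) (e i) u) ∧ Goal v e)
    (σ : Stem) (r : Cond) :
    ∃ r', Le (ζ : WithTop Idx) r' r ∧ ∃ v, ∀ u, Le ((succ ζ : Idx) : WithTop Idx) u q →
      Le (ζ : WithTop Idx) u r' → u.st ζ = σ →
        ∃ g e, Common ζ g e ∧ (∀ i, Le ((succ ζ : Idx) : WithTop Idx) (e i) u) ∧ Goal v e := by
  classical
  by_contra hcon
  have H : ∀ r', Le (ζ : WithTop Idx) r' r → ∀ v, ∃ u, Le ((succ ζ : Idx) : WithTop Idx) u q ∧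
      Le (ζ : WithTop Idx) u r' ∧ u.st ζ = σ ∧
      ¬ ∃ g e, Common ζ g e ∧ (∀ i, Le ((succ ζ : Idx) : WithTop Idx) (e i) u) ∧ Goal v e := by
    intro r' hr' v
    by_contra hc
    refine hcon ⟨r', hr', v, fun u h1 h2 h3 => ?_⟩
    by_contra h4
    exact hc ⟨u, h1, h2, h3, h4⟩
  have hζs : (ζ : WithTop Idx) ≤ ((succ ζ : Idx) : WithTop Idx) :=
    WithTop.coe_le_coe.mpr (le_succ ζ)
  obtain ⟨u0, hu0q, hu0r, hu0σ, -⟩ := H r (Le.refl _ r) 0
  have hu0cl := ((Le.succ_iff ζ u0 q).mp hu0q).2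
  rw [clause_iff] at hu0cl
  set n := σ.s.length - (q.F ζ).card with hn
  have hqcard : (q.F ζ).card ≤ σ.s.length := by
    have := u0.card ζ
    rw [hu0σ] at this
    exact (Finset.card_le_card hu0cl.2.1).trans this
  -- (1)
  have step1 : ∀ (v : ℕ) (u : Cond) (t : Fin n → Nm), Le ((succ ζ : Idx) : WithTop Idx) u q →
      u.st ζ = σ → (∀ a j, (t a j).Below ζ) → (∀ x ∈ u.F ζ, x ∈ q.F ζ ∨ ∃ a, t a = x) →
      (¬ ∃ g e, Common ζ g e ∧ (∀ i, Le ((succ ζ : Idx) : WithTop Idx) (e i) u) ∧ Goal v e) →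
      CompactBad ζ q Goal σ n v u t := by
    intro v u t huq huσ htb htu hP g e hC heq heu hσe hcap hroom hGoal
    have hqe : ∀ i, q.F ζ ⊆ (e i).F ζ := by
      intro i
      have := ((Le.succ_iff ζ (e i) q).mp (heq i)).2
      rw [clause_iff] at this
      exact this.2.1
    have hadd : ∀ i, ∃ q', Le ⊤ q' (e i) ∧ q'.st = (e i).st ∧
        q'.F ζ = (e i).F ζ ∪ Finset.univ.image t ∧ ∀ ξ, ξ ≠ ζ → q'.F ξ = (e i).F ξ := by
      intro i
      refine add_names (e i) ζ ((e i).F ζ ∪ Finset.univ.image t) (fun x hx => ?_)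
        Finset.subset_union_left ?_
      · rcases Finset.mem_union.mp hx with hx | hx
        · exact (e i).below ζ x hx
        · obtain ⟨a, -, rfl⟩ := Finset.mem_image.mp hx
          exact htb a
      · refine (Finset.card_union_le _ _).trans ((Nat.add_le_add_left ?_ _).trans (hroom i))
        exact Finset.card_image_le.trans (by simp)
    choose e' he'1 he'2 he'3 he'4 using hadd
    have hsame : ∀ i (ξ : Idx), (ξ : WithTop Idx) < (ζ : WithTop Idx) →
        (e' i).st ξ = (e i).st ξ ∧ (e' i).F ξ = (e i).F ξ := fun i ξ hξ =>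
      ⟨by rw [he'2 i], he'4 i ξ (WithTop.coe_lt_coe.mp hξ).ne⟩
    refine hP ⟨g, e', fun i => ⟨?_, ?_⟩, fun i => ?_, ?_⟩
    · exact (Le.congr (z := (ζ : WithTop Idx)) (p := g) (p' := g) (q := e' i) (q' := e i)
        (fun _ _ => ⟨rfl, rfl⟩) (hsame i)).mpr (hC i).1
    · exact ((he'1 i).mono le_top).trans (hC i).2
    · rw [Le.succ_iff]
      refine ⟨((he'1 i).mono le_top).trans (heu i), ?_⟩
      have hcl := ((Le.succ_iff ζ (e i) q).mp (heq i)).2
      have hclu := ((Le.succ_iff ζ u q).mp huq).2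
      rw [clause_iff] at hcl hclu ⊢
      rw [he'2 i, huσ]
      refine ⟨hσe i, fun x hx => ?_, fun L S hL hS x hx => ?_⟩
      · rw [he'3 i, Finset.mem_union]
        rcases htu x hx with h | ⟨a, ha⟩
        · exact Or.inl (hqe i h)
        · exact Or.inr (Finset.mem_image.mpr ⟨a, Finset.mem_univ a, ha⟩)
      · refine Cap.mono (p := e i) ?_ ((he'1 i).mono le_top)
        rcases htu x hx with h | ⟨a, ha⟩
        · refine hcl.2.2 L S ?_ hS x h
          have h1 := hclu.1.2.length_le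
          rw [huσ] at h1
          exact h1.trans hL
        · rw [← ha]
          exact hcap i L S hL hS a
    · exact str v e e' (fun i => (he'1 i).mono le_top) hGoal
  -- existence of `t`
  have step1' : ∀ (v : ℕ) (r' : Cond), Le (ζ : WithTop Idx) r' r →
      ∃ u, Le (ζ : WithTop Idx) u r' ∧ ∃ t : Fin n → Nm, (∀ a j, (t a j).Below ζ) ∧
        CompactBad ζ q Goal σ n v u t := by
    intro v r' hr'
    obtain ⟨u, h1, h2, h3, h4⟩ := H r' hr' v
    have hclu := ((Le.succ_iff ζ u q).mp h1).2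
    rw [clause_iff] at hclu
    have hcard : (u.F ζ \ q.F ζ).card ≤ n := by
      rw [Finset.card_sdiff_of_subset hclu.2.1, hn]
      have := u.card ζ
      rw [h3] at this
      exact Nat.sub_le_sub_right this _
    obtain ⟨t, ht1, ht2⟩ := compact_cover hcard
    have htb : ∀ a j, (t a j).Below ζ := by
      intro a j
      rcases ht2 a with h | h
      · exact u.below ζ _ (Finset.mem_sdiff.mp h).1 j
      · rw [h]; trivial
    refine ⟨u, h2, t, htb, step1 v u t h1 h3 htb (fun x hx => ?_) h4⟩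
    by_cases hxq : x ∈ q.F ζ
    · exact Or.inl hxq
    · exact Or.inr (ht1 x (Finset.mem_sdiff.mpr ⟨hx, hxq⟩))
  -- (2)
  have step2 : ∀ (v : ℕ) (g0 r1 : Cond) (t y : Fin n → Nm), CompactBad ζ q Goal σ n v g0 t →
      Le (ζ : WithTop Idx) r1 g0 → (∀ a j, EqF (ζ : WithTop Idx) (t a j) (y a j) r1) →
      CompactBad ζ q Goal σ n v r1 y := by
    intro v g0 r1 t y hbad hr1 heq g e hC h1 h2 h3 h4 h5
    refine hbad g e hC h1 (fun i => (h2 i).trans hr1) h3 (fun i L S hL hS a => ?_) h5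
    exact Cap.congr (h4 i L S hL hS a) fun j _ => ((heq a j).symm).mono (h2 i)
  -- (3)
  have step3 : ∀ v : ℕ, ∃ y : Fin n → Nm, (∀ a j, (y a j).Below ζ) ∧
      CompactBad ζ q Goal σ n v u0 y := by
    intro v
    obtain ⟨y, hy, hmix⟩ := mix ζ n u0 (fun q' t => CompactBad ζ q Goal σ n v q' t)
      (fun q' hq' => by
        obtain ⟨u, h1, t, h2, h3⟩ := step1' v q' (hq'.trans hu0r)
        exact ⟨u, h1, t, h2, h3⟩)
    refine ⟨y, hy, fun g e hC h1 h2 h3 h4 h5 hGoal => ?_⟩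
    obtain ⟨i₀⟩ := ‹Nonempty J›
    obtain ⟨r1, hr1, r0, x, hr0, hbad, heq⟩ := hmix g ((hC i₀).1.trans (h2 i₀))
    have hbad1 := step2 v r0 r1 x y hbad hr0 heq
    obtain ⟨hC', hle'⟩ := common_glue hC hr1
    have hst : ∀ i, (glue ζ r1 (e i)).st ζ = (e i).st ζ := fun i => glue_st_ge r1 (e i) le_rfl
    have hF : ∀ i, (glue ζ r1 (e i)).F ζ = (e i).F ζ := fun i => glue_F_ge r1 (e i) le_rfl
    refine hbad1 r1 (fun i => glue ζ r1 (e i)) hC' (fun i => ((hle' i).mono le_top).trans (h1 i))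
      (fun i => glue_le_left ζ r1 (e i)) (fun i => ?_) (fun i L S hL hS a => ?_) (fun i => ?_) ?_
    · simp only [hst]; exact h3 i
    · simp only [hst] at hS
      exact Cap.mono (h4 i L S hL hS a) ((hle' i).mono le_top)
    · simp only [hst, hF]; exact h5 i
    · exact str v e _ (fun i => (hle' i).mono le_top) hGoal
  choose y hy hybad using step3
  -- (4)
  obtain ⟨ys, hys, hlim⟩ := limit_name ζ n y hy
  have hcard : (q.F ζ ∪ Finset.univ.image ys).card ≤ σ.s.length := by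
    refine (Finset.card_union_le _ _).trans ?_
    have : (Finset.univ.image ys).card ≤ n := Finset.card_image_le.trans (by simp)
    omega
  have hwid : ∀ (L : ℕ) (S : List (List Bool)), σ.s[L]? = some S → S.length ≤ L := by
    intro L S hS
    have := u0.width ζ L S
    rw [hu0σ] at this
    exact this hS
  have hbel : ∀ x ∈ q.F ζ ∪ Finset.univ.image ys, ∀ j, (x j).Below ζ := by
    intro x hx
    rcases Finset.mem_union.mp hx with hx | hx
    · exact q.below ζ x hx
    · obtain ⟨a, -, rfl⟩ := Finset.mem_image.mp hx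
      exact hys a
  obtain ⟨c, hc⟩ : ∃ c, c = upd u0 ζ σ (q.F ζ ∪ Finset.univ.image ys) hcard hwid hbel := ⟨_, rfl⟩
  have hcst : c.st ζ = σ := by rw [hc]; exact extend_upd_st
  have hcF : c.F ζ = q.F ζ ∪ Finset.univ.image ys := by rw [hc]; exact extend_upd_F
  have hcu0 : Le (ζ : WithTop Idx) c u0 := by rw [hc]; exact extend_upd_le
  have hcq : Le ((succ ζ : Idx) : WithTop Idx) c q := by
    rw [Le.succ_iff]
    refine ⟨hcu0.trans (hu0q.mono hζs), ?_⟩
    rw [clause_iff, hcst, hcF]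
    rw [hu0σ] at hu0cl
    refine ⟨hu0cl.1, Finset.subset_union_left, fun L S hL hS x hx => ?_⟩
    exact Cap.mono (hu0cl.2.2 L S hL hS x hx) hcu0
  obtain ⟨v0, g, e, hC, hec, hGoal⟩ := dense c hcq
  obtain ⟨g', e', hC', hg', he', hroom⟩ := sync ζ
    (fun _ p => (p.F ζ).card + n ≤ (p.st ζ).s.length)
    (fun _ p => by
      obtain ⟨p', h1, -, h3, h4, -⟩ := ext_stem p ζ ((p.F ζ).card + n) (p.st ζ).t
        (List.prefix_refl _)
      exact ⟨p', h1, by rw [h4]; exact h3⟩)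
    (fun _ p r h _ => by rw [glue_F_ge r p le_rfl, glue_st_ge r p le_rfl]; exact h) g e hC
  have hGoal' : Goal v0 e' := str v0 e e' (fun i => (he' i).mono le_top) hGoal
  obtain ⟨N, hN⟩ : ∃ N, ∀ i, ((e' i).st ζ).s.length ≤ N := by
    obtain ⟨N, hN⟩ := (Set.finite_range fun i => ((e' i).st ζ).s.length).bddAbove
    exact ⟨N, fun i => hN (Set.mem_range_self i)⟩
  obtain ⟨e1, he1, v, hv, heq⟩ := hlim g' N v0
  obtain ⟨hC'', hle''⟩ := common_glue hC' he1
  have hst : ∀ i, (glue ζ e1 (e' i)).st ζ = (e' i).st ζ := fun i => glue_st_ge e1 (e' i) le_rfl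
  have hF : ∀ i, (glue ζ e1 (e' i)).F ζ = (e' i).F ζ := fun i => glue_F_ge e1 (e' i) le_rfl
  have he'c : ∀ i, Le ((succ ζ : Idx) : WithTop Idx) (e' i) c := fun i =>
    ((he' i).mono le_top).trans (hec i)
  have hclc : ∀ i, σ ≤ (e' i).st ζ ∧ c.F ζ ⊆ (e' i).F ζ ∧ ∀ (L : ℕ) (S : List (List Bool)),
      σ.s.length ≤ L → ((e' i).st ζ).s[L]? = some S → ∀ x ∈ c.F ζ,
        Cap (ζ : WithTop Idx) x L S (e' i) := by
    intro i
    have := ((Le.succ_iff ζ (e' i) c).mp (he'c i)).2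
    rw [clause_iff, hcst] at this
    exact this
  refine hybad v e1 (fun i => glue ζ e1 (e' i)) hC'' (fun i => ?_) (fun i => ?_) (fun i => ?_)
    (fun i L S hL hS a => ?_) (fun i => ?_) ?_
  · exact (((hle'' i).mono le_top).trans (he'c i)).trans hcq
  · exact (((hle'' i).mono le_top).trans ((he'c i).mono hζs)).trans hcu0
  · simp only [hst]; exact (hclc i).1
  · simp only [hst] at hS
    have hmem : ys a ∈ c.F ζ := by
      rw [hcF]
      exact Finset.mem_union_right _ (Finset.mem_image_of_mem ys (Finset.mem_univ a))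
    have h1 := Cap.mono ((hclc i).2.2 L S hL hS (ys a) hmem) ((hle'' i).mono le_top)
    refine Cap.congr h1 fun j hj => ?_
    have hjN : j < N := hj.trans ((order_lt_length hS).trans_le (hN i))
    exact ((heq a j hjN).symm).mono (glue_le_left ζ e1 (e' i))
  · simp only [hst, hF]; exact hroom i
  · exact mono v0 v _ hv (str v0 e' _ (fun i => (hle'' i).mono le_top) hGoal')

/-- the same for finitely many stems at once -/
theorem compactness_le (ζ : Idx) (q : Cond) {J : Type} [Finite J] [Nonempty J]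
    (Goal : ℕ → (J → Cond) → Prop)
    (mono : ∀ v v' e, v ≤ v' → Goal v e → Goal v' e)
    (str : ∀ v e e', (∀ i, Le ((succ ζ : Idx) : WithTop Idx) (e' i) (e i)) → Goal v e → Goal v e')
    (dense : ∀ u, Le ((succ ζ : Idx) : WithTop Idx) u q →
      ∃ v g e, Common ζ g e ∧ (∀ i, Le ((succ ζ : Idx) : WithTop Idx) (e i) u) ∧ Goal v e)
    (k : ℕ) (r : Cond) :
    ∃ r', Le (ζ : WithTop Idx) r' r ∧ ∃ v, ∀ i ≤ k, ∀ u, Le ((succ ζ : Idx) : WithTop Idx) u q →
      Le (ζ : WithTop Idx) u r' → u.st ζ = stemEnum i →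
        ∃ g e, Common ζ g e ∧ (∀ i, Le ((succ ζ : Idx) : WithTop Idx) (e i) u) ∧ Goal v e := by
  have key : ∀ K : ℕ, ∃ r', Le (ζ : WithTop Idx) r' r ∧ ∃ v, ∀ i < K, ∀ u,
      Le ((succ ζ : Idx) : WithTop Idx) u q → Le (ζ : WithTop Idx) u r' → u.st ζ = stemEnum i →
        ∃ g e, Common ζ g e ∧ (∀ i, Le ((succ ζ : Idx) : WithTop Idx) (e i) u) ∧ Goal v e := by
    intro K
    induction K with
    | zero => exact ⟨r, Le.refl _ r, 0, fun i hi => absurd hi (Nat.not_lt_zero i)⟩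
    | succ K ih =>
      obtain ⟨r1, h1, v1, hv1⟩ := ih
      obtain ⟨r2, h2, v2, hv2⟩ := compactness ζ q Goal mono str dense (stemEnum K) r1
      refine ⟨r2, h2.trans h1, max v1 v2, fun i hi u g1 g2 g3 => ?_⟩
      rcases Nat.lt_succ_iff_lt_or_eq.mp hi with hlt | heq
      · obtain ⟨g, e, f1, f2, f3⟩ := hv1 i hlt u g1 (g2.trans h2) g3
        exact ⟨g, e, f1, f2, mono _ _ e (le_max_left v1 v2) f3⟩
      · rw [heq] at g3
        obtain ⟨g, e, f1, f2, f3⟩ := hv2 u g1 g2 g3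
        exact ⟨g, e, f1, f2, mono _ _ e (le_max_right v1 v2) f3⟩
  obtain ⟨r', h1, v, hv⟩ := key (k + 1)
  exact ⟨r', h1, v, fun i hi => hv i (Nat.lt_succ_of_le hi)⟩

end Pool.Agent.Lib.MP_4d8715_gt.KR
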