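import Pool.Agent.Lib.MP_4d8715_gt.KR.C.Bound
import Pool.Agent.Lib.MP_4d8715_gt.KR.C.Compact

/-! # (B), successor step (module C-BSTEP) -/

namespace Pool.Agent.Lib.MP_4d8715_gt.KR

open Order

theorem bstep_le_triv (z : WithTop Idx) (u : Cond) : Le z u Cond.triv := by
  intro ξ _
  rw [clause_iff]
  refine ⟨⟨List.nil_prefix, List.nil_prefix⟩, Finset.empty_subset _, fun L S _ _ x hx => ?_⟩
  exact absurd hx (Finset.notMem_empty x)

theorem bound_succ (ζ : Idx) (E : ℕ → ℕ → Tm) (h : BoundName (succ ζ) E) :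
    ∃ E' : ℕ → ℕ → Tm, BoundName ζ E' ∧ ∀ p : Cond, ∃ m : ℕ, ∀ k, m ≤ k →
      ∀ (v : ℕ) (p1 : Cond), Le ⊤ p1 p → Frc (ζ : WithTop Idx) (E' k v) p1 →
        ∃ p', Le ⊤ p' p ∧ Le (ζ : WithTop Idx) p' p1 ∧ Frc ⊤ (E k v) p' := by
  have hζs : (ζ : WithTop Idx) ≤ ((succ ζ : Idx) : WithTop Idx) :=
    WithTop.coe_le_coe.mpr (le_succ ζ)
  obtain ⟨E', hE', hfrc⟩ := boundOfSets ζ
    (fun k v => {r | ∀ i ≤ k, ∀ u, Le (ζ : WithTop Idx) u r → u.st ζ = stemEnum i →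
      ∃ p', Le ((succ ζ : Idx) : WithTop Idx) p' u ∧
        Frc ((succ ζ : Idx) : WithTop Idx) (E k v) p'})
    (fun k v r hr q hq i hi u hu hσ => hr i hi u (hu.trans hq) hσ)
    (fun k v r hr i hi u hu hσ => by
      obtain ⟨p', h1, h2⟩ := hr i hi u hu hσ
      exact ⟨p', h1, h.mono k v p' h2⟩)
    (fun k p => by
      obtain ⟨r', h1, v, h2⟩ := compactness_le ζ Cond.triv (J := Unit)
        (fun v e => Frc ((succ ζ : Idx) : WithTop Idx) (E k v) (e ()))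
        (fun v v' e hv he => h.mono_le hv he)
        (fun v e e' he hG => Frc.mono hG (he ()))
        (fun u _ => by
          obtain ⟨q, hq, v, hv⟩ := h.dense k u
          exact ⟨v, q, fun _ => q, fun _ => ⟨Le.refl _ q, Le.refl _ q⟩, fun _ => hq, hv⟩)
        k p
      refine ⟨r', h1, v, fun i hi u hu hσ => ?_⟩
      obtain ⟨g, e, -, he, hG⟩ := h2 i hi u (bstep_le_triv _ u) hu hσ
      exact ⟨e (), he (), hG⟩)
  refine ⟨E', hE', fun p => ?_⟩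
  obtain ⟨m, hm⟩ := stemEnum_surjective (p.st ζ)
  refine ⟨m, fun k hk v p1 hp1 hE1 => ?_⟩
  have hp2 : Le ⊤ (glue ζ p1 p) p := glue_le ⊤ (hp1.mono le_top)
  have hp2' : Le (ζ : WithTop Idx) (glue ζ p1 p) p1 := glue_le_left ζ p1 p
  obtain ⟨r, hr, hrD⟩ := (hfrc k v p1).mp hE1 _ hp2'
  have hp3 : Le ⊤ (glue ζ r (glue ζ p1 p)) (glue ζ p1 p) := glue_le ⊤ hr
  have hst : (glue ζ r (glue ζ p1 p)).st ζ = stemEnum m := by
    rw [glue_st_ge _ _ le_rfl, glue_st_ge _ _ le_rfl, hm]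
  obtain ⟨p', h1, h2⟩ := hrD m hk _ (glue_le_left ζ r (glue ζ p1 p)) hst
  refine ⟨glue (succ ζ) p' (glue ζ r (glue ζ p1 p)), ((glue_le ⊤ h1).trans hp3).trans hp2, ?_, ?_⟩
  · exact (((glue_le ⊤ h1).mono le_top).trans (hp3.mono le_top)).trans hp2'
  · rw [frc_local (h.below k v) le_top]
    exact Frc.mono h2 (glue_le_left _ _ _)

end Pool.Agent.Lib.MP_4d8715_gt.KR
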