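import Pool.Agent.Lib.MP_4d8715_gt.KR.C.Defs

/-! # Names of bounds (module C-BOUND) -/

namespace Pool.Agent.Lib.MP_4d8715_gt.KR

open Order

variable {ζ β : Idx}

theorem BoundName.mono_le {E : ℕ → ℕ → Tm} (h : BoundName ζ E) {k v v' : ℕ} (hv : v ≤ v')
    {p : Cond} (hp : Frc (ζ : WithTop Idx) (E k v) p) : Frc (ζ : WithTop Idx) (E k v') p := by
  induction hv with
  | refl => exact hp
  | step _ ih => exact h.mono k _ p ih

theorem boundOfSets (ζ : Idx) (D : ℕ → ℕ → Set Cond)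
    (hclosed : ∀ k v, ∀ p ∈ D k v, ∀ q, Le (ζ : WithTop Idx) q p → q ∈ D k v)
    (hmono : ∀ k v, D k v ⊆ D k (v + 1))
    (hdense : ∀ k p, ∃ q, Le (ζ : WithTop Idx) q p ∧ ∃ v, q ∈ D k v) :
    ∃ E : ℕ → ℕ → Tm, BoundName ζ E ∧ ∀ k v p, Frc (ζ : WithTop Idx) (E k v) p ↔
      ∀ q, Le (ζ : WithTop Idx) q p → ∃ r, Le (ζ : WithTop Idx) r q ∧ r ∈ D k v := by
  choose E hE hEf using fun k v => exists_term ζ (D k v) (hclosed k v)
  refine ⟨E, ⟨hE, fun k v p hp => ?_, fun k p => ?_⟩, hEf⟩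
  · rw [hEf] at hp ⊢
    intro q hq
    obtain ⟨r, hr, hD⟩ := hp q hq
    exact ⟨r, hr, hmono k v hD⟩
  · obtain ⟨q, hq, v, hv⟩ := hdense k p
    refine ⟨q, hq, v, ?_⟩
    rw [hEf]
    exact fun r hr => ⟨r, Le.refl _ r, hclosed k v q hv r hr⟩

theorem conj_bound (β : Idx) (Ls : ℕ → ℕ → ℕ → Tm) (h : ∀ n, BoundName β (Ls n)) :
    ∃ L : ℕ → ℕ → Tm, BoundName β L ∧
      ∀ n k v p, n ≤ k → Frc (β : WithTop Idx) (L k v) p → Frc (β : WithTop Idx) (Ls n k v) p := by
  have hkey : ∀ k v p, Frc (β : WithTop Idx) (Tm.inf fun n => Ls (min n k) k v) p ↔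
      ∀ n ≤ k, Frc (β : WithTop Idx) (Ls n k v) p := by
    intro k v p
    rw [frc_inf]
    constructor
    · intro hf n hn
      have := hf n
      rwa [min_eq_left hn] at this
    · intro hf n
      exact hf _ (min_le_right n k)
  refine ⟨fun k v => Tm.inf fun n => Ls (min n k) k v, ⟨fun k v => ?_, fun k v p hp => ?_,
    fun k p => ?_⟩, fun n k v p hn hp => (hkey k v p).mp hp n hn⟩
  · rw [below_inf]
    exact fun n => (h _).below k v
  · rw [hkey] at hp ⊢
    exact fun n hn => (h n).mono k v p (hp n hn)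
  · have hind : ∀ K, ∃ q, Le (β : WithTop Idx) q p ∧ ∃ v, ∀ n < K,
        Frc (β : WithTop Idx) (Ls n k v) q := by
      intro K
      induction K with
      | zero => exact ⟨p, Le.refl _ p, 0, fun n hn => absurd hn (Nat.not_lt_zero n)⟩
      | succ K ih =>
        obtain ⟨q, hq, v, hv⟩ := ih
        obtain ⟨r, hr, v', hv'⟩ := (h K).dense k q
        refine ⟨r, hr.trans hq, max v v', fun n hn => ?_⟩
        rcases Nat.lt_succ_iff_lt_or_eq.mp hn with hlt | heq
        · exact (h n).mono_le (le_max_left v v') (Frc.mono (hv n hlt) hr)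
        · rw [heq]
          exact (h K).mono_le (le_max_right v v') hv'
    obtain ⟨q, hq, v, hv⟩ := hind (k + 1)
    refine ⟨q, hq, v, ?_⟩
    rw [hkey]
    exact fun n hn => hv n (Nat.lt_succ_of_le hn)

theorem least_fun {L : ℕ → ℕ → Tm} (h : BoundName β L) :
    ∃ l : ℕ → ℕ → Tm, FunName β l ∧
      ∀ k v p, Frc (β : WithTop Idx) (l k v) p → Frc (β : WithTop Idx) (L k v) p := by
  refine ⟨fun k v => match v with
    | 0 => L k 0
    | v + 1 => Tm.and (L k (v + 1)) (.neg (L k v)), ⟨fun k v => ?_, fun k v v' p hp hp' => ?_,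
    fun k p => ?_⟩, fun k v p hp => ?_⟩
  · cases v with
    | zero => exact h.below k 0
    | succ v => exact below_and (h.below k (v + 1)) (h.below k v)
  · have hlt : ∀ v v', v < v' → Frc (β : WithTop Idx) (match v with
        | 0 => L k 0
        | v + 1 => Tm.and (L k (v + 1)) (.neg (L k v))) p → Frc (β : WithTop Idx) (match v' with
        | 0 => L k 0
        | v + 1 => Tm.and (L k (v + 1)) (.neg (L k v))) p → False := by
      intro v v' hvv h1 h2
      have h1' : Frc (β : WithTop Idx) (L k v) p := by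
        cases v with
        | zero => exact h1
        | succ v => exact ((frc_and _ _ _).mp h1).1
      cases v' with
      | zero => exact absurd hvv (Nat.not_lt_zero v)
      | succ v' =>
        exact not_frc_both (h.mono_le (Nat.lt_succ_iff.mp hvv) h1') ((frc_and _ _ _).mp h2).2
    rcases lt_trichotomy v v' with hc | hc | hc
    · exact (hlt v v' hc hp hp').elim
    · exact hc
    · exact (hlt v' v hc hp' hp).elim
  · obtain ⟨q, hq, v, hv⟩ := h.dense k p
    induction v generalizing q with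
    | zero => exact ⟨q, hq, 0, hv⟩
    | succ v ih =>
      obtain ⟨r, hr, hd⟩ := frc_decide (β : WithTop Idx) (L k v) q
      rcases hd with hd | hd
      · exact ih r (hr.trans hq) hd
      · exact ⟨r, hr.trans hq, v + 1, (frc_and _ _ _).mpr ⟨Frc.mono hv hr, hd⟩⟩
  · cases v with
    | zero => exact hp
    | succ v => exact ((frc_and _ _ _).mp hp).1

theorem BoundName.lift {E : ℕ → ℕ → Tm} {η ξ : Idx} (h : BoundName η E) (hξ : ξ ≤ η)
    (hE : ∀ k v, (E k v).Below ξ) : BoundName ξ E := by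
  have hz : (ξ : WithTop Idx) ≤ (η : WithTop Idx) := WithTop.coe_le_coe.mpr hξ
  refine ⟨hE, fun k v p hp => ?_, fun k p => ?_⟩
  · rw [← frc_local (hE k _) hz] at hp ⊢
    exact h.mono k v p hp
  · obtain ⟨q, hq, v, hv⟩ := h.dense k p
    exact ⟨q, hq.mono hz, v, (frc_local (hE k v) hz q).mp hv⟩

/-- `Dominates` composed with a reduction from `E` (a bound name on `η`) to `E'` (a bound name on
`ζ ≥ β`) -/
theorem Dominates.comp {E E' L : ℕ → ℕ → Tm} (hβ : β ≤ ζ)
    (hred : ∀ p : Cond, ∃ m : ℕ, ∀ k, m ≤ k → ∀ (v : ℕ) (p1 : Cond), Le ⊤ p1 p →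
      Frc (ζ : WithTop Idx) (E' k v) p1 →
        ∃ p', Le ⊤ p' p ∧ Le (ζ : WithTop Idx) p' p1 ∧ Frc ⊤ (E k v) p')
    (hE' : Dominates β E' L) (hbelow : ∀ k v, (E' k v).Below ζ) : Dominates β E L := by
  intro p
  obtain ⟨m1, h1⟩ := hred p
  obtain ⟨m2, h2⟩ := hE' p
  refine ⟨max m1 m2, fun k hk v r hr hL => ?_⟩
  obtain ⟨p1, g1, g2, g3⟩ := h2 k ((le_max_right _ _).trans hk) v r hr hL
  obtain ⟨p', f1, f2, f3⟩ := h1 k ((le_max_left _ _).trans hk) v p1 g1
    ((frc_local (hbelow k v) le_top p1).mp g3)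
  exact ⟨p', f1, (f2.mono (WithTop.coe_le_coe.mpr hβ)).trans g2, f3⟩

/-- the base case of (B) -/
theorem dominates_self {E : ℕ → ℕ → Tm} (h : BoundName β E) : Dominates β E E := by
  intro p
  refine ⟨0, fun k _ v r hr hE => ⟨glue β r p, glue_le ⊤ hr, glue_le_left β r p, ?_⟩⟩
  rw [frc_local (h.below k v) le_top]
  exact Frc.mono hE (glue_le_left β r p)

end Pool.Agent.Lib.MP_4d8715_gt.KR
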