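import Pool.Agent.Lib.MP_4d8715_gt.KR.C.BStep
import Pool.Agent.Lib.MP_4d8715_gt.KR.C.BLim

/-! # The boundedness theorem (B) (module C-B) -/

namespace Pool.Agent.Lib.MP_4d8715_gt.KR

open Order

theorem bounded {β η : Idx} (hβ : β ≤ η) (E : ℕ → ℕ → Tm) (h : BoundName η E) :
    ∃ L, BoundName β L ∧ Dominates β E L := by
  induction η using WellFoundedLT.induction generalizing E with
  | ind η ih =>
    rcases hβ.eq_or_lt with heq | hlt
    · subst heq
      exact ⟨E, h, dominates_self h⟩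
    · rcases idx_cases η with h0 | ⟨ζ, rfl⟩ | ⟨h0, hlim⟩
      · rw [h0] at hlt
        exact absurd hlt (not_lt.mpr zero_le)
      · have hζ : β ≤ ζ := lt_succ_iff.mp hlt
        obtain ⟨E', hE', hred⟩ := bound_succ ζ E h
        obtain ⟨L, hL, hdom⟩ := ih ζ (lt_succ ζ) hζ E' hE'
        exact ⟨L, hL, Dominates.comp hζ hred hdom hE'.below⟩
      · by_cases hcof : CofOmega η
        · exact bound_limit hlt hlim hcof (fun ζ hζ hβζ E hE => ih ζ hζ hβζ E hE) E h
        · obtain ⟨ξ, hξ, hEξ⟩ := below_fun_of_not_cofOmega h0 hlim hcof E h.below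
          exact ih (max ξ β) (max_lt hξ hlt) (le_max_right _ _) E
            (h.lift (max_lt hξ hlt).le fun k v => (hEξ k v).mono (le_max_left _ _))

end Pool.Agent.Lib.MP_4d8715_gt.KR
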