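import Pool.Agent.Lib.MP_4d8715_gt.KR.C.Split

/-! # The pigeonhole contradiction (module C-PIGEON)

`k + 1` conditions `e i ≤[⊤] q` with a common part below `ζ ≥ β`, pairwise separated below `v`, all forcing `b k` and `l k v`. By
extending the common part `g` decide all bits `S k a j`, `a < k`, `j < v` (finitely many terms below `β`; use `frc_decide`
finitely often, with `z = β` or `ζ`), replace `e i` by `glue ζ g' (e i)`. By `Localized` extend each `e i` to `e' i` forcing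
`x j = S k (a i) j` for `j < v`, `a i < k`. Two indices `i ≠ i'` have `a i = a i'`; `Sep x v (e i) (e i')` gives `j < v` with, say, `e i ⊩ x j`,
`e i' ⊩ ¬ x j`. So `e' i ⊩ S k a j` and `e' i' ⊩ ¬ S k a j`, but `g'` decides `S k a j`: contradiction. -/

namespace Pool.Agent.Lib.MP_4d8715_gt.KR

open Order

theorem pigeon {β ζ : Idx} (hβ : β ≤ ζ) {x : Nm} {l : ℕ → ℕ → Tm} {b : ℕ → Tm}
    {S : ℕ → ℕ → Nm} (hb : ∀ k, (b k).Below β) (hS : ∀ k i j, (S k i j).Below β)
    (hl : ∀ k v, (l k v).Below β) {m : ℕ} {q : Cond} (h : Localized x l b S m q) {k v : ℕ}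
    (hk : m < k) (g : Cond) (e : Fin (k + 1) → Cond) (hg : Common ζ g e)
    (he : ∀ i, Le ⊤ (e i) q) (hbk : ∀ i, Frc ⊤ (b k) (e i)) (hlk : ∀ i, Frc ⊤ (l k v) (e i))
    (hsep : ∀ i i', i ≠ i' → Sep x v (e i) (e i')) : False := by
  classical
  have htop : (ζ : WithTop Idx) ≤ ⊤ := le_top
  have hSζ : ∀ k i j, (S k i j).Below ζ := fun k i j => (hS k i j).mono hβ
  have hSn : ∀ k i j, (Tm.neg (S k i j)).Below ζ := hSζ
  obtain ⟨g', hg', U, hU⟩ := exists_agree_finset (ζ : WithTop Idx)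
    ((Finset.range k).image fun a => S k a) v g
  have hUa : ∀ a < k, (U (S k a)).length = v ∧ Agree (ζ : WithTop Idx) (S k a) (U (S k a)) g' :=
    fun a ha => hU _ (Finset.mem_image.mpr ⟨a, Finset.mem_range.mpr ha, rfl⟩)
  have hge : ∀ i, Le (ζ : WithTop Idx) g' (e i) := fun i => hg'.trans (hg i).1
  have hgl : ∀ i, Le ⊤ (glue ζ g' (e i)) (e i) := fun i => glue_le ⊤ (hge i)
  have hch : ∀ i, ∃ r', Le ⊤ r' (glue ζ g' (e i)) ∧ ∃ a < k, ∀ j < v,
      EqF ⊤ (x j) (S k a j) r' := fun i =>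
    h.2 k hk v (glue ζ g' (e i)) ((hgl i).trans (he i)) ((hbk i).mono (hgl i))
      ((hlk i).mono (hgl i))
  choose r hr a ha heq using hch
  have hrg : ∀ i, Le (ζ : WithTop Idx) (r i) g' := fun i =>
    ((hr i).mono htop).trans (glue_le_left ζ g' (e i))
  have hre : ∀ i, Le ⊤ (r i) (e i) := fun i => (hr i).trans (hgl i)
  obtain ⟨i, i', hii, hai⟩ := Fintype.exists_ne_map_eq_of_card_lt
    (fun i : Fin (k + 1) => (⟨a i, ha i⟩ : Fin k)) (by simp)
  have hai' : a i = a i' := congrArg Fin.val hai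
  -- the contradiction
  have key : ∀ i i' : Fin (k + 1), a i = a i' → ∀ j < v, Frc ⊤ (x j) (e i) →
      Frc ⊤ (.neg (x j)) (e i') → False := by
    intro i i' haa j hj h1 h2
    have h3 : Frc ⊤ (S k (a i) j) (r i) := ((heq i j hj) (r i) (Le.refl _ _)).mp (h1.mono (hre i))
    have h4 : Frc ⊤ (.neg (S k (a i') j)) (r i') :=
      ((heq i' j hj).neg (r i') (Le.refl _ _)).mp (h2.mono (hre i'))
    rw [← haa] at h4
    obtain ⟨hlen, hag⟩ := hUa (a i) (ha i)
    have hj' : j < (U (S k (a i))).length := by rw [hlen]; exact hj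
    have hget := List.getElem?_eq_getElem hj'
    have h5 := hag j _ hget
    cases hb0 : (U (S k (a i)))[j] with
    | true =>
      have h6 : Frc (ζ : WithTop Idx) (S k (a i) j) g' := h5.1 hb0
      have h7 : Frc ⊤ (S k (a i) j) (r i') := (frc_local (hSζ _ _ _) htop _).mpr (h6.mono (hrg i'))
      exact not_frc_both h7 h4
    | false =>
      have h6 : Frc (ζ : WithTop Idx) (.neg (S k (a i) j)) g' := h5.2 hb0
      have h7 : Frc ⊤ (.neg (S k (a i) j)) (r i) :=
        (frc_local (hSn _ _ _) htop _).mpr (h6.mono (hrg i))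
      exact not_frc_both h3 h7
  obtain ⟨j, hj, h1 | h1⟩ := hsep i i' hii
  · exact key i i' hai' j hj h1.1 h1.2
  · exact key i' i hai'.symm j hj h1.2 h1.1

/-- what is common to the two cases: the condition `r` below `β` -/
theorem localized_start {β : Idx} {x : Nm} {l L : ℕ → ℕ → Tm} {b : ℕ → Tm}
    {S : ℕ → ℕ → Nm} (hb : ∀ k, (b k).Below β) (hl : FunName β l)
    (hL : ∀ k v p, Frc (β : WithTop Idx) (l k v) p → Frc (β : WithTop Idx) (L k v) p)
    {m : ℕ} {q : Cond} (h : Localized x l b S m q) {E : ℕ → ℕ → Tm} (hdom : Dominates β E L)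
    (N : ℕ) : ∃ (k v : ℕ) (p : Cond), N < k ∧ m < k ∧ Le ⊤ p q ∧ Frc ⊤ (E k v) p ∧
      Frc (β : WithTop Idx) (b k) p ∧ Frc (β : WithTop Idx) (l k v) p := by
  have htop : (β : WithTop Idx) ≤ ⊤ := le_top
  obtain ⟨m', hm'⟩ := hdom q
  obtain ⟨r', hr', k, hk, hbk⟩ := h.1 (max N (max m m')) q (Le.refl _ _)
  obtain ⟨q1, hq1, v, hv⟩ := hl.dense k r'
  have hq1q : Le (β : WithTop Idx) q1 q := hq1.trans (hr'.mono htop)
  obtain ⟨p', hp'q, hp'1, hE⟩ := hm' k (by omega) v q1 hq1q (hL k v q1 hv)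
  refine ⟨k, v, p', by omega, by omega, hp'q, hE, ?_, hv.mono hp'1⟩
  exact ((frc_local (hb k) htop r').mp hbk).mono (hp'1.trans hq1)

end Pool.Agent.Lib.MP_4d8715_gt.KR
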