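import Pool.Agent.Lib.MP_4d8715_gt.KR.C.Bounded
import Pool.Agent.Lib.MP_4d8715_gt.KR.C.Pigeon

/-! # New reals are not localized: limit case (module C-CLIM)

`split_below`: for `ζ < η` with `TrivOn ζ η q`: `D k v := {r | ∀ u, u ≤[⊤] q → u ≤[ζ] r → TrivOn ζ η u → ∃ g (e : Fin (k+1) → Cond), Common ζ g e ∧
(∀ i, e i ≤[⊤] u) ∧ pairwise Sep x v}`: closed, monotone; dense: given `p`: if there is no `u ≤[⊤] q`, `u ≤[ζ] p` with `TrivOn ζ η u` then `p ∈ D k v`.
Otherwise let `u0 := glue ζ u q ≤[⊤] q`, apply `splittings` to `u0`: `v, g, e`. Then `g ≤[ζ] p` and `g ∈ D k v`: for `u ≤[⊤] q`, `u ≤[ζ] g`,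
`TrivOn ζ η u` let `e' i := glue η (glue ζ u (e i)) u`: `≤[⊤] u` (below `ζ` equal to `u`, on `[ζ,η)` the condition `u` is trivial, above `η`
equal to `u`) and `≤[η] e i`; `Sep.mono_local`. Common part `u`.
`notLocalized_lim`: `f` (`exists_mono_seq`, dropping finitely many terms so that `TrivOn (f n) η q` for all `n`), `E n` from
`split_below`, `Ls n` from `bounded`, `L` from `conj_bound`, `l` from `least_fun`. If `Localized x l b S m q''` take `n` with
`TrivOn (f n) η q''`, `localized_start` with `Dominates β (E n) (fun k v => L k v)` for `k ≥ n` (adapt: `Dominates` for `max n m`),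
`p2 := glue (f n) p q''`, `r ≤[f n] p2` in `D k v`, `u := glue (f n) r p2`, `pigeon`. -/

namespace Pool.Agent.Lib.MP_4d8715_gt.KR

open Order

private theorem clim_trans {z : WithTop Idx} {p q r : Cond} (h₁ : Le z p q) (h₂ : Le z q r) :
    Le z p r := Le.trans h₁ h₂

private theorem clim_below {ζ : Idx} {p q : Cond} (h : Le ⊤ p q) : Le (ζ : WithTop Idx) p q :=
  Le.mono le_top h

/-- a condition which is trivial on `[ζ, η)` is weaker up to `η` than each condition which is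
stronger below `ζ` -/
private theorem clim_ext {ζ η : Idx} {p q : Cond} (hq : TrivOn ζ η q)
    (h : Le (ζ : WithTop Idx) p q) : Le (η : WithTop Idx) p q := by
  intro ξ hξ
  rw [WithTop.coe_lt_coe] at hξ
  by_cases hζ : ξ < ζ
  · exact h ξ (WithTop.coe_lt_coe.2 hζ)
  · obtain ⟨h1, h2⟩ := hq ξ (not_lt.1 hζ) hξ
    rw [clause_iff, h1, h2]
    refine ⟨⟨List.nil_prefix, List.nil_prefix⟩, Finset.empty_subset _, ?_⟩
    intro L S _ _ x hx
    exact absurd hx (Finset.notMem_empty x)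

private theorem clim_triv_glue {ζ η : Idx} {r u : Cond} (hu : TrivOn ζ η u) :
    TrivOn ζ η (glue ζ r u) := by
  intro ξ h1 h2
  rw [glue_st_ge r u h1, glue_F_ge r u h1]
  exact hu ξ h1 h2

theorem split_below {ζ η : Idx} (hζ : ζ ≤ η) {x : Nm} (hx : ∀ j, (x j).Below η) {q : Cond}
    (hq : TrivOn ζ η q) (h : NewOver ζ x q) : ∃ E, BoundName ζ E ∧
      ∀ (k v : ℕ) (u : Cond), Le ⊤ u q → TrivOn ζ η u → Frc (ζ : WithTop Idx) (E k v) u →
        ∃ (g : Cond) (e : Fin (k + 1) → Cond), Common ζ g e ∧ (∀ i, Le ⊤ (e i) u) ∧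
          ∀ i i', i ≠ i' → Sep x v (e i) (e i') := by
  have hζη : (ζ : WithTop Idx) ≤ (η : WithTop Idx) := WithTop.coe_le_coe.2 hζ
  obtain ⟨E, hE, hE'⟩ := boundOfSets ζ (fun k v => {r | ∀ u, Le ⊤ u q →
    Le (ζ : WithTop Idx) u r → TrivOn ζ η u → ∃ (g : Cond) (e : Fin (k + 1) → Cond),
      Common ζ g e ∧ (∀ i, Le ⊤ (e i) u) ∧ ∀ i i', i ≠ i' → Sep x v (e i) (e i')})
    (by
      intro k v p hp q' hq' u hu1 hu2 hu3
      exact hp u hu1 (clim_trans hu2 hq') hu3)
    (by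
      intro k v p hp u hu1 hu2 hu3
      obtain ⟨g, e, h1, h2, h3⟩ := hp u hu1 hu2 hu3
      exact ⟨g, e, h1, h2, fun i i' hi =>
        Sep.mono (h3 i i' hi) (Nat.le_succ v) (Le.refl _ _) (Le.refl _ _)⟩)
    (by
      intro k p
      by_cases hex : ∃ u, Le ⊤ u q ∧ Le (ζ : WithTop Idx) u p ∧ TrivOn ζ η u
      · obtain ⟨u, hu1, hu2, hu3⟩ := hex
        have hu0 : Le ⊤ (glue ζ u q) q := glue_le ⊤ (clim_below hu1)
        obtain ⟨v, g, e, h1, h2, h3⟩ := splittings h k (glue ζ u q) hu0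
        have hgu : Le (ζ : WithTop Idx) g u :=
          clim_trans (h1 0).1 (clim_trans (clim_below (h2 0)) (glue_le_left ζ u q))
        refine ⟨g, clim_trans hgu hu2, v, ?_⟩
        intro u' hu'1 hu'2 hu'3
        have ha : ∀ i, Le (ζ : WithTop Idx) u' (e i) := fun i => clim_trans hu'2 (h1 i).1
        have hb : ∀ i, Le (η : WithTop Idx) (glue ζ u' (e i)) u' := fun i =>
          clim_ext hu'3 (glue_le_left ζ u' (e i))
        refine ⟨u', fun i => glue η (glue ζ u' (e i)) u', ?_, ?_, ?_⟩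
        · intro i
          refine ⟨clim_trans (left_le_glue ζ u' (e i))
            (Le.mono hζη (left_le_glue η (glue ζ u' (e i)) u')), ?_⟩
          exact clim_below (glue_le ⊤ (hb i))
        · intro i
          exact glue_le ⊤ (hb i)
        · intro i i' hi
          refine Sep.mono_local hx (h3 i i' hi) le_rfl ?_ ?_
          · exact clim_trans (glue_le_left η _ u') (glue_le (η : WithTop Idx) (ha i))
          · exact clim_trans (glue_le_left η _ u') (glue_le (η : WithTop Idx) (ha i'))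
      · refine ⟨p, Le.refl _ _, 0, ?_⟩
        intro u hu1 hu2 hu3
        exact absurd ⟨u, hu1, hu2, hu3⟩ hex)
  refine ⟨E, hE, ?_⟩
  intro k v u hu1 hu2 hu3
  obtain ⟨r, hr1, hr2⟩ := (hE' k v u).1 hu3 u (Le.refl _ _)
  have h1 : Le ⊤ (glue ζ r u) u := glue_le ⊤ hr1
  obtain ⟨g, e, h2, h3, h4⟩ := hr2 (glue ζ r u) (clim_trans h1 hu1) (glue_le_left ζ r u)
    (clim_triv_glue hu2)
  exact ⟨g, e, h2, fun i => clim_trans (h3 i) h1, h4⟩

theorem notLocalized_lim {β η : Idx} (hβ : β < η) (hlim : ∀ ξ < η, succ ξ < η)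
    (hcof : CofOmega η) {x : Nm} (hx : ∀ j, (x j).Below η) {q : Cond}
    (h : ∀ ζ < η, NewOver ζ x q) : ∃ l, FunName β l ∧ ∀ q'' m b S, Le ⊤ q'' q →
      (∀ k, (b k : Tm).Below β) → (∀ k i j, (S k i j : Tm).Below β) → ¬ Localized x l b S m q'' := by
  obtain ⟨f0, hf0mono, hf0, hf0cof⟩ := exists_mono_seq hcof hβ
  obtain ⟨n0, hn0⟩ := trivOn_seq f0 hf0mono hlim hf0cof q
  set f : ℕ → Idx := fun n => f0 (n + n0) with hf
  have hfmono : Monotone f := fun a b hab => hf0mono (Nat.add_le_add_right hab n0)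
  have hfcof : ∀ ξ < η, ∃ n, ξ ≤ f n := by
    intro ξ hξ
    obtain ⟨n, hn⟩ := hf0cof ξ hξ
    exact ⟨n, hn.trans (hf0mono (Nat.le_add_right n n0))⟩
  have hsp : ∀ n, ∃ E, BoundName (f n) E ∧
      ∀ (k v : ℕ) (u : Cond), Le ⊤ u q → TrivOn (f n) η u → Frc (f n : WithTop Idx) (E k v) u →
        ∃ (g : Cond) (e : Fin (k + 1) → Cond), Common (f n) g e ∧ (∀ i, Le ⊤ (e i) u) ∧
          ∀ i i', i ≠ i' → Sep x v (e i) (e i') := fun n =>
    split_below (hf0 (n + n0)).2.le hx (hn0 (n + n0) (Nat.le_add_left n0 n))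
      (h _ (hf0 (n + n0)).2)
  choose E hE hE' using hsp
  have hbd : ∀ n, ∃ L, BoundName β L ∧ Dominates β (E n) L := fun n =>
    bounded (hf0 (n + n0)).1 (E n) (hE n)
  choose Ls hLs hdom using hbd
  obtain ⟨L, hL, hL'⟩ := conj_bound β Ls hLs
  obtain ⟨l, hl, hl'⟩ := least_fun hL
  refine ⟨l, hl, ?_⟩
  intro q'' m b S hq'' hb hS hloc
  obtain ⟨n, hn⟩ := trivOn_seq f hfmono hlim hfcof q''
  have hdomL : Dominates β (E n) L := by
    intro p
    obtain ⟨m', hm'⟩ := hdom n p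
    refine ⟨max n m', ?_⟩
    intro k hk v r hr hLk
    exact hm' k ((le_max_right _ _).trans hk) v r hr (hL' n k v r ((le_max_left _ _).trans hk) hLk)
  obtain ⟨k, v, p, -, hk, hp, hpE, hpb, hpl⟩ := localized_start hb hl hl' hloc hdomL 0
  set ζ : Idx := f n with hζ
  have hβζ : β ≤ ζ := (hf0 (n + n0)).1
  have hβζ' : (β : WithTop Idx) ≤ (ζ : WithTop Idx) := WithTop.coe_le_coe.2 hβζ
  have hp2 : Le ⊤ (glue ζ p q'') q'' := glue_le ⊤ (clim_below hp)
  have hp2E : Frc (ζ : WithTop Idx) (E n k v) (glue ζ p q'') := by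
    have h1 : Frc (ζ : WithTop Idx) (E n k v) p := (frc_local ((hE n).below k v) le_top p).1 hpE
    exact Frc.mono h1 (glue_le_left ζ p q'')
  obtain ⟨g, e, hg, he, hsep⟩ := hE' n k v (glue ζ p q'') (clim_trans hp2 hq'')
    (clim_triv_glue (hn n le_rfl)) hp2E
  have hep : ∀ i, Le (β : WithTop Idx) (e i) p := fun i =>
    clim_trans (clim_below (he i)) (Le.mono hβζ' (glue_le_left ζ p q''))
  exact pigeon hβζ hb hS hl.below hloc hk g e hg (fun i => clim_trans (he i) hp2)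
    (fun i => (frc_local (hb k) le_top (e i)).2 (Frc.mono hpb (hep i)))
    (fun i => (frc_local (hl.below k v) le_top (e i)).2 (Frc.mono hpl (hep i))) hsep

end Pool.Agent.Lib.MP_4d8715_gt.KR
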