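import Pool.Agent.Lib.MP_4d8715_gt.KR.C.Bounded
import Pool.Agent.Lib.MP_4d8715_gt.KR.C.Pigeon

/-! # New reals are not localized: successor case (module C-CSUCC)

`D k v := {r | ∀ i ≤ k, ∀ u, u ≤[ζ+1] q → u ≤[ζ] r → u.st ζ = stemEnum i → ∃ g (e : Fin (k+1) → Cond), Common ζ g e ∧ (∀ i, e i ≤[ζ+1] u) ∧
pairwise Sep x v}`, dense by `compactness_le` with `J := Fin (k+1)`, `Goal v e := ∀ i ≠ i', Sep x v (e i) (e i')` (`Sep.mono_local`, `x` below `ζ+1`;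
`dense` from `splittings` applied to `glue (ζ+1) u q`). `E` from `boundOfSets`, `L` from `bounded` (`β ≤ ζ`), `l` from `least_fun`, `q' := q`.
Suppose `Localized x l b S m q''`. `N` := an index of `q''.st ζ`; `localized_start`: `k > N, m`, `v`, `p ≤[⊤] q''` with `p ⊩ E k v`, `b k`, `l k v`.
`p2 := glue ζ p q''` (`≤[⊤] q''`, `p2.st ζ = q''.st ζ`), `r ≤[ζ] p2` in `D k v`, `u := glue ζ r p2`; the `e i ≤[ζ+1] u` become `≤[⊤] u` by
`glue (ζ+1) (e i) u`; apply `pigeon`. -/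

namespace Pool.Agent.Lib.MP_4d8715_gt.KR

open Order

theorem notLocalized_succ {β ζ : Idx} (hβ : β ≤ ζ) {x : Nm} (hx : ∀ j, (x j).Below (succ ζ))
    {q : Cond} (h : NewOver ζ x q) : ∃ l, FunName β l ∧ ∀ q'' m b S, Le ⊤ q'' q →
      (∀ k, (b k : Tm).Below β) → (∀ k i j, (S k i j : Tm).Below β) → ¬ Localized x l b S m q'' := by
  have htop : (ζ : WithTop Idx) ≤ ⊤ := le_top
  have hstop : ((succ ζ : Idx) : WithTop Idx) ≤ ⊤ := le_top
  have hζs : (ζ : WithTop Idx) ≤ ((succ ζ : Idx) : WithTop Idx) :=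
    WithTop.coe_le_coe.mpr (le_succ ζ)
  have hβζ : (β : WithTop Idx) ≤ (ζ : WithTop Idx) := WithTop.coe_le_coe.mpr hβ
  have hβtop : (β : WithTop Idx) ≤ ⊤ := le_top
  let D : ℕ → ℕ → Set Cond := fun k v => {r | ∀ i ≤ k, ∀ u,
    Le ((succ ζ : Idx) : WithTop Idx) u q → Le (ζ : WithTop Idx) u r → u.st ζ = stemEnum i →
      ∃ (g : Cond) (e : Fin (k + 1) → Cond), Common ζ g e ∧
        (∀ i, Le ((succ ζ : Idx) : WithTop Idx) (e i) u) ∧
        ∀ i i', i ≠ i' → Sep x v (e i) (e i')}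
  have hclosed : ∀ k v, ∀ p ∈ D k v, ∀ q, Le (ζ : WithTop Idx) q p → q ∈ D k v :=
    fun k v p hp q' hq' i hi u hu1 hu2 hu3 => hp i hi u hu1 (hu2.trans hq') hu3
  have hmono : ∀ k v, D k v ⊆ D k (v + 1) := by
    intro k v r hr i hi u hu1 hu2 hu3
    obtain ⟨g, e, h1, h2, h3⟩ := hr i hi u hu1 hu2 hu3
    exact ⟨g, e, h1, h2, fun i i' hii => (h3 i i' hii).mono (Nat.le_succ v) (Le.refl _ _)
      (Le.refl _ _)⟩
  have hdense : ∀ k p, ∃ q, Le (ζ : WithTop Idx) q p ∧ ∃ v, q ∈ D k v := by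
    intro k p
    obtain ⟨r', hr', v, hv⟩ := compactness_le ζ q (J := Fin (k + 1))
      (fun v e => ∀ i i', i ≠ i' → Sep x v (e i) (e i'))
      (fun v v' e hvv hG i i' hii => (hG i i' hii).mono hvv (Le.refl _ _) (Le.refl _ _))
      (fun v e e' hee hG i i' hii => (hG i i' hii).mono_local hx le_rfl (hee i) (hee i'))
      (fun u hu => by
        obtain ⟨v, g, e, h1, h2, h3⟩ := splittings h k (glue (succ ζ) u q) (glue_le ⊤ hu)
        exact ⟨v, g, e, h1, fun i => ((h2 i).mono hstop).trans (glue_le_left (succ ζ) u q), h3⟩)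
      k p
    exact ⟨r', hr', v, hv⟩
  obtain ⟨E, hE, hEiff⟩ := boundOfSets ζ D hclosed hmono hdense
  obtain ⟨L, hL, hdom⟩ := bounded hβ E hE
  obtain ⟨l, hl, hlL⟩ := least_fun hL
  refine ⟨l, hl, fun q'' m b S hq'' hb hS hloc => ?_⟩
  obtain ⟨N, hN⟩ := stemEnum_surjective (q''.st ζ)
  obtain ⟨k, v, p, hNk, hmk, hpq, hpE, hpb, hpl⟩ := localized_start hb hl hlL hloc hdom N
  have hpqζ : Le (ζ : WithTop Idx) p q'' := hpq.mono htop
  obtain ⟨p2, hp2⟩ : ∃ p2, p2 = glue ζ p q'' := ⟨_, rfl⟩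
  have hp2q : Le ⊤ p2 q'' := by rw [hp2]; exact glue_le ⊤ hpqζ
  have hp2p : Le (ζ : WithTop Idx) p2 p := by rw [hp2]; exact glue_le_left ζ p q''
  have hp2st : p2.st ζ = q''.st ζ := by rw [hp2]; exact glue_st_ge _ _ le_rfl
  have hE2 : Frc (ζ : WithTop Idx) (E k v) p2 := ((frc_local (hE.below k v) htop p).mp hpE).mono hp2p
  obtain ⟨r, hr, hrD⟩ := (hEiff k v p2).mp hE2 p2 (Le.refl _ _)
  obtain ⟨u, hu⟩ : ∃ u, u = glue ζ r p2 := ⟨_, rfl⟩
  have hup2 : Le ⊤ u p2 := by rw [hu]; exact glue_le ⊤ hr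
  have huq : Le ⊤ u q'' := hup2.trans hp2q
  have hur : Le (ζ : WithTop Idx) u r := by rw [hu]; exact glue_le_left ζ r p2
  have hust : u.st ζ = stemEnum N := by
    rw [hu, glue_st_ge _ _ le_rfl, hp2st, hN]
  obtain ⟨g, e, h1, h2, h3⟩ := hrD N hNk.le u ((huq.trans hq'').mono hstop) hur hust
  have h4 : ∀ i, Le ⊤ (glue (succ ζ) (e i) u) u := fun i => glue_le ⊤ (h2 i)
  have h5 : ∀ i, Le (β : WithTop Idx) (glue (succ ζ) (e i) u) p := fun i =>
    (((h4 i).mono hβtop).trans (hup2.mono hβtop)).trans (hp2p.mono hβζ)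
  refine pigeon (v := v) hβ hb hS hl.below hloc hmk g (fun i => glue (succ ζ) (e i) u)
    (fun i => ⟨?_, ?_⟩)
    (fun i => (h4 i).trans huq) (fun i => ?_) (fun i => ?_) (fun i i' hii => ?_)
  · exact (h1 i).1.trans ((left_le_glue (succ ζ) (e i) u).mono hζs)
  · exact ((glue_le_left (succ ζ) (e i) u).mono hζs).trans (h1 i).2
  · exact (frc_local (hb k) hβtop _).mpr (hpb.mono (h5 i))
  · exact (frc_local (hl.below k v) hβtop _).mpr (hpl.mono (h5 i))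
  · exact (h3 i i' hii).mono_local hx le_rfl (glue_le_left (succ ζ) (e i) u)
      (glue_le_left (succ ζ) (e i') u)

end Pool.Agent.Lib.MP_4d8715_gt.KR
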