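import Pool.Agent.Lib.MP_4d8715_gt.KR.C.Cof

/-! # Closing off (module C-CLOSE)

`small_below`: inject into the inductive type (in `Type`) of terms whose atoms have an index in `ξ.toType` (or `Set.Iio ξ`
shrunk by `Ordinal.small_Iio`). `exists_closed`: let `g ξ` be the supremum of `max (G l) ξ` over the (small) set of `l` with all `l k v` below `ξ`,
`f a := sup_{b<a} succ (max (g (f b)) (f b))` (well-founded recursion), `β := f ω₁`. `f` is monotone and `f b < f a` for
`b < a`; countable subsets of `ω₁` are bounded. -/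

namespace Pool.Agent.Lib.MP_4d8715_gt.KR

open Order

/-- terms with atoms indexed by a small type -/
inductive CloseTm (A : Type) : Type
  | bot : CloseTm A
  | atom (i : A) (σ : Stem) : CloseTm A
  | neg (a : CloseTm A) : CloseTm A
  | sup (f : ℕ → CloseTm A) : CloseTm A

/-- interpretation of small terms -/
def CloseTm.toTm {A : Type} (e : A → Idx) : CloseTm A → Tm
  | .bot => .bot
  | .atom i σ => .atom (e i) σ
  | .neg a => .neg (a.toTm e)
  | .sup f => .sup fun n => (f n).toTm e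

private theorem close_exists {A : Type} (e : A → Idx) (ξ : Idx) (he : ∀ ζ < ξ, ∃ i, e i = ζ) :
    ∀ a : Tm, a.Below ξ → ∃ c : CloseTm A, c.toTm e = a := by
  intro a
  induction a with
  | bot => intro _; exact ⟨.bot, rfl⟩
  | atom ζ σ =>
    intro h
    obtain ⟨i, hi⟩ := he ζ h
    exact ⟨.atom i σ, by simp [CloseTm.toTm, hi]⟩
  | neg a ih =>
    intro h
    obtain ⟨c, hc⟩ := ih h
    exact ⟨.neg c, by simp [CloseTm.toTm, hc]⟩
  | sup f ih =>
    intro h
    choose c hc using fun n => ih n (h n)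
    exact ⟨.sup c, by simp [CloseTm.toTm, hc]⟩

private theorem close_below {A : Type} (e : A → Idx) (ξ : Idx) (he : ∀ i, e i < ξ)
    (c : CloseTm A) : (c.toTm e).Below ξ := by
  induction c with
  | bot => trivial
  | atom i σ => exact he i
  | neg a ih => exact ih
  | sup f ih => exact fun n => ih n

theorem small_below (ξ : Idx) : Small.{0} {a : Tm // a.Below ξ} := by
  let A : Type := Shrink.{0} (Set.Iio ξ)
  let e : A → Idx := fun i => ((equivShrink (Set.Iio ξ)).symm i).1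
  have he1 : ∀ i, e i < ξ := fun i => ((equivShrink (Set.Iio ξ)).symm i).2
  have he2 : ∀ ζ < ξ, ∃ i, e i = ζ := fun ζ hζ =>
    ⟨equivShrink (Set.Iio ξ) ⟨ζ, hζ⟩, by simp [e]⟩
  exact small_of_surjective (f := fun c : CloseTm A =>
    (⟨c.toTm e, close_below e ξ he1 c⟩ : {a : Tm // a.Below ξ})) (by
      rintro ⟨a, ha⟩
      obtain ⟨c, hc⟩ := close_exists e ξ he2 a ha
      exact ⟨c, Subtype.ext hc⟩)

private theorem close_mono {ξ ζ : Idx} (h : ξ ≤ ζ) (a : Tm) (ha : a.Below ξ) : a.Below ζ := by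
  induction a with
  | bot => trivial
  | atom η σ => exact lt_of_lt_of_le ha h
  | neg a ih => exact ih ha
  | sup f ih => exact fun n => ih n (ha n)

private theorem close_small (ξ : Idx) :
    Small.{0} {l : ℕ → ℕ → Tm // ∀ k v, (l k v).Below ξ} := by
  have := small_below ξ
  have h2 : Small.{0} (ℕ → ℕ → {a : Tm // a.Below ξ}) := inferInstance
  exact small_of_surjective (f := fun c : ℕ → ℕ → {a : Tm // a.Below ξ} =>
    (⟨fun k v => (c k v).1, fun k v => (c k v).2⟩ :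
      {l : ℕ → ℕ → Tm // ∀ k v, (l k v).Below ξ})) (by
      rintro ⟨l, hl⟩
      exact ⟨fun k v => ⟨l k v, hl k v⟩, rfl⟩)

/-- the supremum of the successors of `G l` -/
private noncomputable def closeG (G : (ℕ → ℕ → Tm) → Idx) (ξ : Idx) : Idx :=
  ⨆ l : {l : ℕ → ℕ → Tm // ∀ k v, (l k v).Below ξ}, succ (G l.1)

private theorem closeG_lt (G : (ℕ → ℕ → Tm) → Idx) (ξ : Idx) (l : ℕ → ℕ → Tm)
    (hl : ∀ k v, (l k v).Below ξ) : G l < closeG G ξ := by
  have := close_small ξ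
  refine lt_of_lt_of_le (lt_succ (G l)) ?_
  exact Ordinal.le_iSup (fun l : {l : ℕ → ℕ → Tm // ∀ k v, (l k v).Below ξ} => succ (G l.1)) ⟨l, hl⟩

/-- the iteration -/
private noncomputable def closeF (G : (ℕ → ℕ → Tm) → Idx) : Idx → Idx :=
  WellFounded.fix (C := fun _ => Idx) (wellFounded_lt (α := Idx))
    (fun a ih => ⨆ b : Set.Iio a, succ (max (closeG G (ih b.1 b.2)) (ih b.1 b.2)))

private theorem closeF_eq (G : (ℕ → ℕ → Tm) → Idx) (a : Idx) :
    closeF G a = ⨆ b : Set.Iio a, succ (max (closeG G (closeF G b.1)) (closeF G b.1)) := by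
  unfold closeF
  rw [WellFounded.fix_eq]

private theorem closeF_le (G : (ℕ → ℕ → Tm) → Idx) {a b : Idx} (h : b < a) :
    succ (max (closeG G (closeF G b)) (closeF G b)) ≤ closeF G a := by
  rw [closeF_eq G a]
  exact Ordinal.le_iSup (fun b : Set.Iio a => succ (max (closeG G (closeF G b.1)) (closeF G b.1)))
    ⟨b, h⟩

private theorem closeF_lt (G : (ℕ → ℕ → Tm) → Idx) {a b : Idx} (h : b < a) :
    closeF G b < closeF G a :=
  lt_of_lt_of_le (lt_succ_of_le (le_max_right _ _)) (closeF_le G h)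

private theorem closeF_lt_iff (G : (ℕ → ℕ → Tm) → Idx) {a ξ : Idx} (h : ξ < closeF G a) :
    ∃ b < a, ξ ≤ max (closeG G (closeF G b)) (closeF G b) := by
  rw [closeF_eq, Ordinal.lt_iSup_iff] at h
  obtain ⟨⟨b, hb⟩, h⟩ := h
  exact ⟨b, hb, lt_succ_iff.1 h⟩

theorem omega_one_limit : (Ordinal.omega 1 : Idx) ≠ 0 ∧
    ∀ ξ < (Ordinal.omega 1 : Idx), succ ξ < Ordinal.omega 1 := by
  refine ⟨(Ordinal.omega_pos 1).ne', fun ξ hξ => ?_⟩
  exact (Cardinal.isSuccLimit_omega 1).succ_lt hξ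

theorem omega_one_not_cofOmega : ¬ CofOmega (Ordinal.omega 1) := by
  rintro ⟨f, hf, hc⟩
  have h1 : ⨆ n, f n < Ordinal.omega 1 := Ordinal.iSup_lt_omega_one hf
  obtain ⟨n, hn⟩ := hc _ (omega_one_limit.2 _ h1)
  have h2 : f n ≤ ⨆ n, f n := Ordinal.le_iSup f n
  exact absurd (lt_of_lt_of_le (lt_succ (⨆ n, f n)) hn) (not_lt.2 h2)

theorem exists_closed (G : (ℕ → ℕ → Tm) → Idx) : ∃ β : Idx, β ≠ 0 ∧ (∀ ξ < β, succ ξ < β) ∧
    ¬ CofOmega β ∧ ∀ l : ℕ → ℕ → Tm, (∀ k v, (l k v).Below β) → G l < β := by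
  set β := closeF G (Ordinal.omega 1) with hβ
  have hlim := omega_one_limit.2
  have hβ0 : β ≠ 0 := by
    have h1 : closeF G 0 < β := closeF_lt G (Ordinal.omega_pos 1)
    exact (lt_of_le_of_lt (bot_le) h1).ne'
  have hex : ∀ ξ < β, ∃ b < (Ordinal.omega 1 : Idx), ξ < closeF G b := by
    intro ξ hξ
    obtain ⟨b, hb, h1⟩ := closeF_lt_iff G hξ
    refine ⟨succ b, hlim b hb, ?_⟩
    exact lt_of_lt_of_le (lt_succ_of_le h1) (closeF_le G (lt_succ b))
  have hβlim : ∀ ξ < β, succ ξ < β := by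
    intro ξ hξ
    obtain ⟨b, hb, h1⟩ := hex ξ hξ
    exact lt_of_le_of_lt (succ_le_of_lt h1) (closeF_lt G hb)
  have hcof : ¬ CofOmega β := by
    rintro ⟨f, hf, hc⟩
    choose b hb hfb using fun n => hex (f n) (hf n)
    have h1 : ⨆ n, b n < Ordinal.omega 1 := Ordinal.iSup_lt_omega_one hb
    obtain ⟨n, hn⟩ := hc (closeF G (⨆ n, b n)) (closeF_lt G h1)
    have h2 : b n ≤ ⨆ n, b n := Ordinal.le_iSup b n
    have h3 : closeF G (b n) ≤ closeF G (⨆ n, b n) := by
      rcases h2.lt_or_eq with h | h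
      · exact (closeF_lt G h).le
      · rw [h]
    exact absurd (lt_of_lt_of_le (hfb n) h3) (not_lt.2 hn)
  refine ⟨β, hβ0, hβlim, hcof, fun l hl => ?_⟩
  obtain ⟨ξ, hξ, h1⟩ := below_fun_of_not_cofOmega hβ0 hβlim hcof l hl
  obtain ⟨b, hb, h2⟩ := hex ξ hξ
  have h3 := closeG_lt G (closeF G b) l (fun k v => close_mono h2.le _ (h1 k v))
  exact lt_of_lt_of_le (lt_of_lt_of_le h3 (le_max_left _ _))
    ((le_succ _).trans (closeF_le G hb))

theorem countable_below_omega_one {ξ : Idx} (h : ξ < Ordinal.omega 1) : (Set.Iio ξ).Countable := by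
  have h1 : ξ.card < Cardinal.aleph 1 := by
    rw [← Cardinal.lt_ord, Cardinal.ord_aleph]
    exact h
  have h2 : ξ.card ≤ Cardinal.aleph0 := by
    rw [← Cardinal.aleph_zero]
    rw [← Cardinal.succ_aleph0] at h1
    rw [Cardinal.aleph_zero]
    exact lt_succ_iff.1 h1
  rw [← Cardinal.le_aleph0_iff_set_countable]
  rw [Cardinal.mk_Iio_ordinal]
  rw [← Cardinal.lift_aleph0.{1, 0}]
  exact Cardinal.lift_le.2 h2

theorem not_countable_omega_one : ¬ (Set.Iio (Ordinal.omega 1 : Idx)).Countable := by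
  intro h
  rw [← Cardinal.le_aleph0_iff_set_countable, Cardinal.mk_Iio_ordinal, Ordinal.card_omega] at h
  rw [← Cardinal.lift_aleph0.{1, 0}, Cardinal.lift_le] at h
  exact absurd (Cardinal.aleph0_lt_aleph_one) (not_lt.2 h)

end Pool.Agent.Lib.MP_4d8715_gt.KR
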