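import Pool.Agent.Lib.MP_4d8715_gt.KR.P.Names
import Pool.Agent.Lib.MP_4d8715_gt.KR.P.Gen

/-! # Definitions for part C (boundedness and new reals) -/

namespace Pool.Agent.Lib.MP_4d8715_gt.KR

open Order

/-- a name of a bound: `E k v` says that the `k`-th value is at most `v` -/
structure BoundName (ζ : Idx) (E : ℕ → ℕ → Tm) : Prop where
  below : ∀ k v, (E k v).Below ζ
  mono : ∀ k v p, Frc (ζ : WithTop Idx) (E k v) p → Frc (ζ : WithTop Idx) (E k (v + 1)) p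
  dense : ∀ k p, ∃ q, Le (ζ : WithTop Idx) q p ∧ ∃ v, Frc (ζ : WithTop Idx) (E k v) q

/-- the bound `L` (a name below `β`) dominates the bound `E` in the sense of (B) -/
def Dominates (β : Idx) (E L : ℕ → ℕ → Tm) : Prop :=
  ∀ p : Cond, ∃ m : ℕ, ∀ k, m ≤ k → ∀ (v : ℕ) (r : Cond), Le (β : WithTop Idx) r p →
    Frc (β : WithTop Idx) (L k v) r →
      ∃ p', Le ⊤ p' p ∧ Le (β : WithTop Idx) p' r ∧ Frc ⊤ (E k v) p'

/-- a name of a function from `ℕ` to `ℕ`: `l k v` says that the value at `k` is `v` -/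
structure FunName (ζ : Idx) (l : ℕ → ℕ → Tm) : Prop where
  below : ∀ k v, (l k v).Below ζ
  unique : ∀ k v v' p, Frc (ζ : WithTop Idx) (l k v) p → Frc (ζ : WithTop Idx) (l k v') p → v = v'
  dense : ∀ k p, ∃ q, Le (ζ : WithTop Idx) q p ∧ ∃ v, Frc (ζ : WithTop Idx) (l k v) q

/-- `q` forces that `x` is different from all names below `β` -/
def NewOver (β : Idx) (x : Nm) (q : Cond) : Prop :=
  ∀ y : Nm, (∀ j, (y j).Below β) → ∀ q', Le ⊤ q' q → ¬ ∀ j, EqF ⊤ (x j) (y j) q'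

/-- `q` forces that `b` is infinite and that for all `k ∈ b`, `k > m`, the name `x` agrees below `l k`
with one of the `S k i`, `i < k` -/
def Localized (x : Nm) (l : ℕ → ℕ → Tm) (b : ℕ → Tm) (S : ℕ → ℕ → Nm) (m : ℕ) (q : Cond) : Prop :=
  (∀ N r, Le ⊤ r q → ∃ r', Le ⊤ r' r ∧ ∃ k, N < k ∧ Frc ⊤ (b k) r') ∧
    ∀ k, m < k → ∀ v r, Le ⊤ r q → Frc ⊤ (b k) r → Frc ⊤ (l k v) r →
      ∃ r', Le ⊤ r' r ∧ ∃ i < k, ∀ j < v, EqF ⊤ (x j) (S k i j) r'

/-- the conditions `e i` have, below `ζ`, the same strength as `g` -/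
def Common (ζ : Idx) {J : Type} (g : Cond) (e : J → Cond) : Prop :=
  ∀ i, Le (ζ : WithTop Idx) g (e i) ∧ Le (ζ : WithTop Idx) (e i) g

/-- some bit of `x` below `v` is decided in different ways by `p` and `p'` -/
def Sep (x : Nm) (v : ℕ) (p p' : Cond) : Prop :=
  ∃ j < v, (Frc ⊤ (x j) p ∧ Frc ⊤ (.neg (x j)) p') ∨ (Frc ⊤ (.neg (x j)) p ∧ Frc ⊤ (x j) p')

/-- there is a countable cofinal subset of the ordinal `η` -/
def CofOmega (η : Idx) : Prop := ∃ f : ℕ → Idx, (∀ n, f n < η) ∧ ∀ ξ < η, ∃ n, ξ ≤ f n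

/-- `p` is trivial on `[ζ, η)` -/
def TrivOn (ζ η : Idx) (p : Cond) : Prop := ∀ ξ, ζ ≤ ξ → ξ < η → p.st ξ = Stem.nil ∧ p.F ξ = ∅

end Pool.Agent.Lib.MP_4d8715_gt.KR
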