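import Pool.Agent.Lib.MP_4d8715_gt.KR.C.NotLoc
import Pool.Agent.Lib.MP_4d8715_gt.KR.C.Close

/-! # (TC) and (KL) at the level of conditions (modules C-TC, C-KL)

`TC_cond`: `G l` := a bound of the names `b`, `S` chosen for `l` (if `l` is a function name for some index), `β` from
`exists_closed`, `S' := fun L i => sGen β L i`. Let `p ≤ p0`, `X x p`, `p' ≤ p`. If `NewOver β x p'` take `q'`, `l` from `notLocalized`; `l` is below some
`ξ < β`, so `b`, `S` for `l` are below `β`; `hthin` gives `q''`, `m` with `Localized x l b S m q''`: contradiction. So there are `q' ≤ p'` and `y` below `β`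
with `q'` forcing `x = y`; `capture β y` gives the rest. (Only `hthin` for `l` with `FunName β l` for some `β` is used.)

`KL_cond`: let `g` be a function name below `η ≥ ω₁`; `E k v` := `g k ≤ v` (sup over `w ≤ v` of `g k w`), `bounded` with `β = ω₁`: `L` below `ω₁`,
hence below some `ξ0 < ω₁` (`below_fun_of_not_cofOmega`). Let `ξ0 ≤ a < ω₁` and suppose `p` forces for all `k > m`: `c_a` meets `(k, g k]`.
`Dominates` at `p`: `m'`; `cohen a L` with `z = ω₁`, `m := max m m' + 1`: `q ≤[ω₁] p`, `k`, `v`, `q ⊩ L k v`, `q ⊩ ¬ c_a j` for `k < j ≤ v`. `p' ≤[⊤] p`, `p' ≤[ω₁] q`,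
`p' ⊩ E k v`; refine `p'` to decide `g k = w ≤ v`; contradiction (`c_a` is below `a + 1 ≤ ω₁`, `Frc.mono_local`). -/

namespace Pool.Agent.Lib.MP_4d8715_gt.KR

open Order

theorem TC_cond (X : Nm → Cond → Prop)
    (hmono : ∀ x p q, X x p → Le ⊤ q p → X x q) (p0 : Cond)
    (hthin : ∀ (β : Idx) (l : ℕ → ℕ → Tm), FunName β l → ∃ (b : ℕ → Tm) (S : ℕ → ℕ → Nm),
      ∀ x p, Le ⊤ p p0 → X x p → ∃ q, Le ⊤ q p ∧ ∃ m, Localized x l b S m q) :
    ∃ S : ℕ → ℕ → Nm, ∀ x p, Le ⊤ p p0 → X x p → ∃ q, Le ⊤ q p ∧ ∃ m, ∀ L, m < L →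
      ∀ r, Le ⊤ r q → ∃ r', Le ⊤ r' r ∧ ∃ i < L, ∀ j < L, EqF ⊤ (x j) (S L i j) r' := by
  classical
  have h1 : ∀ l : ℕ → ℕ → Tm, ∃ (b : ℕ → Tm) (S : ℕ → ℕ → Nm), (∃ β, FunName β l) →
      ∀ x p, Le ⊤ p p0 → X x p → ∃ q, Le ⊤ q p ∧ ∃ m, Localized x l b S m q := by
    intro l
    by_cases hl : ∃ β, FunName β l
    · obtain ⟨β, hβ⟩ := hl
      obtain ⟨b, S, hbS⟩ := hthin β l hβ
      exact ⟨b, S, fun _ => hbS⟩
    · exact ⟨fun _ => .bot, fun _ _ _ => .bot, fun h => absurd h hl⟩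
  choose b S hbS using h1
  have h2 : ∀ l : ℕ → ℕ → Tm, ∃ ζ : Idx, (∀ k, (b l k).Below ζ) ∧
      ∀ k i j, (S l k i j).Below ζ := by
    intro l
    obtain ⟨ζ1, hζ1⟩ := exists_below_name (b l)
    obtain ⟨ζ2, hζ2⟩ := exists_below_fun
      (fun k v => S l k (Nat.unpair v).1 (Nat.unpair v).2)
    refine ⟨max ζ1 ζ2, fun k => (hζ1 k).mono (le_max_left _ _), fun k i j => ?_⟩
    have h3 := hζ2 k (Nat.pair i j)
    rw [Nat.unpair_pair] at h3
    exact h3.mono (le_max_right _ _)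
  choose G hG1 hG2 using h2
  obtain ⟨β, -, -, -, hβ⟩ := exists_closed G
  refine ⟨fun L i => sGen β L i, fun x p hp hX => ?_⟩
  by_cases hnew : NewOver β x p
  · exfalso
    obtain ⟨q', hq', l, hl, hno⟩ := notLocalized hnew
    have hGl := hβ l hl.below
    obtain ⟨q'', hq'', m, hL⟩ := hbS l ⟨β, hl⟩ x q' (hq'.trans hp) (hmono x p q' hX hq')
    exact hno q'' m (b l) (S l) hq'' (fun k => (hG1 l k).mono hGl.le)
      (fun k i j => (hG2 l k i j).mono hGl.le) hL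
  · unfold NewOver at hnew
    push Not at hnew
    obtain ⟨y, hy, q', hq', hxy⟩ := hnew
    obtain ⟨q, hq, m, hcap⟩ := capture β y hy q'
    refine ⟨q, hq.trans hq', m, fun L hL r hr => ?_⟩
    obtain ⟨r', hr', i, hi, hj⟩ := hcap L hL r hr
    refine ⟨r', hr', i, hi, fun j hjL => ?_⟩
    exact ((hxy j).mono ((hr'.trans hr).trans hq)).trans (hj j hjL)

theorem KL_cond (η : Idx) (g : ℕ → ℕ → Tm) (hg : FunName η g) :
    ∃ ξ0 : Idx, ξ0 < Ordinal.omega 1 ∧ ∀ a, ξ0 ≤ a → a < Ordinal.omega 1 → ∀ (p : Cond) (m : ℕ),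
      ∃ q, Le ⊤ q p ∧ ∃ k, m < k ∧ ∃ w, Frc ⊤ (g k w) q ∧
        ∀ j, k < j → j ≤ w → Frc ⊤ (.neg (cGen a j)) q := by
  classical
  obtain ⟨E, hE⟩ : ∃ E : ℕ → ℕ → Tm, E = fun k v =>
      Tm.sup fun w => if w ≤ v then g k w else Tm.bot := ⟨_, rfl⟩
  have hEsup : ∀ (z : WithTop Idx) (k v : ℕ) (p : Cond), Frc z (E k v) p ↔
      ∀ q, Le z q p → ∃ r, Le z r q ∧ ∃ w, w ≤ v ∧ Frc z (g k w) r := by
    intro z k v p
    rw [hE]
    change Frc z (Tm.sup fun w => if w ≤ v then g k w else Tm.bot) p ↔ _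
    rw [frc_sup]
    constructor
    · intro h q hq
      obtain ⟨r, hr, w, hw⟩ := h q hq
      refine ⟨r, hr, w, ?_⟩
      by_cases hwv : w ≤ v
      · rw [if_pos hwv] at hw
        exact ⟨hwv, hw⟩
      · rw [if_neg hwv] at hw
        exact absurd hw frc_bot
    · intro h q hq
      obtain ⟨r, hr, w, hwv, hw⟩ := h q hq
      refine ⟨r, hr, w, ?_⟩
      rw [if_pos hwv]
      exact hw
  have hηη' : η ≤ max η (Ordinal.omega 1) := le_max_left _ _
  have hηz : ((η : Idx) : WithTop Idx) ≤ ((max η (Ordinal.omega 1) : Idx) : WithTop Idx) :=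
    WithTop.coe_le_coe.mpr hηη'
  have hbn' : BoundName (max η (Ordinal.omega 1)) E := by
    refine ⟨?_, ?_, ?_⟩
    · intro k v
      rw [hE]
      intro w
      change Tm.Below _ (if w ≤ v then g k w else Tm.bot)
      split_ifs
      · exact (hg.below k w).mono hηη'
      · trivial
    · intro k v p h
      rw [hEsup] at h ⊢
      intro q hq
      obtain ⟨r, hr, w, hwv, hw⟩ := h q hq
      exact ⟨r, hr, w, by omega, hw⟩
    · intro k p
      obtain ⟨q, hq, v, hv⟩ := hg.dense k p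
      refine ⟨glue η q p, glue_le _ hq, v, ?_⟩
      have hv' : Frc ((max η (Ordinal.omega 1) : Idx) : WithTop Idx) (g k v) (glue η q p) :=
        (frc_local (hg.below k v) hηz _).mpr (hv.mono (glue_le_left η q p))
      rw [hEsup]
      intro r hr
      exact ⟨r, Le.refl _ r, v, le_rfl, hv'.mono hr⟩
  obtain ⟨L, hL, hdom⟩ := bounded (le_max_right η (Ordinal.omega 1)) E hbn'
  obtain ⟨ξ0, hξ0, hLξ⟩ := below_fun_of_not_cofOmega omega_one_limit.1 omega_one_limit.2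
    omega_one_not_cofOmega L hL.below
  refine ⟨ξ0, hξ0, fun a ha ha1 p m => ?_⟩
  have haz : ((a : Idx) : WithTop Idx) ≤ ((Ordinal.omega 1 : Idx) : WithTop Idx) :=
    WithTop.coe_le_coe.mpr ha1.le
  have hLa : ∀ k v, (L k v).Below a := fun k v => (hLξ k v).mono ha
  obtain ⟨m', hm'⟩ := hdom p
  obtain ⟨q, hq, k, hk, v, hLv, hc⟩ := cohen a L hLa (fun k p => by
    obtain ⟨q, hq, v, hv⟩ := hL.dense k p
    exact ⟨q, hq.mono haz, v, (frc_local (hLa k v) haz q).mp hv⟩)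
    (WithTop.coe_lt_coe.mpr ha1) p (max m m' + 1)
  have hk1 : m < k := by
    have := le_max_left m m'
    omega
  have hk2 : m' ≤ k := by
    have := le_max_right m m'
    omega
  obtain ⟨p', hp', hp'q, hEp'⟩ := hm' k hk2 v q hq hLv
  rw [hEsup] at hEp'
  obtain ⟨r, hr, w, hwv, hw⟩ := hEp' p' (Le.refl ⊤ p')
  refine ⟨r, hr.trans hp', k, hk1, w, hw, fun j hj hjw => ?_⟩
  have h3 := hc j hj (hjw.trans hwv)
  have hrq : Le ((Ordinal.omega 1 : Idx) : WithTop Idx) r q := (hr.mono le_top).trans hp'q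
  have hbel : (Tm.neg (cGen a j)).Below (Ordinal.omega 1 : Idx) :=
    (cGen_below a j).mono (succ_le_of_lt ha1)
  exact (frc_local hbel le_top r).mpr (h3.mono hrq)

end Pool.Agent.Lib.MP_4d8715_gt.KR
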