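import Pool.Agent.Lib.MP_4d8715_gt.KR.C.CSucc
import Pool.Agent.Lib.MP_4d8715_gt.KR.C.CLim

/-! # New reals are not localized (C) (module C-C)

Let `η` be minimal such that some `q' ≤[⊤] q` forces `x = x'` for some `x'` below `η` (`exists_below_name` gives one). Then
`NewOver ζ x' q'` for all `ζ < η`, `β < η` (otherwise `x'` is below `β`), `idx_cases`: `η = ζ + 1`: `notLocalized_succ`; limit:
`CofOmega η` by `below_name_of_not_cofOmega`, `notLocalized_lim`. `Localized` passes from `x` to `x'` below `q'`. -/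

namespace Pool.Agent.Lib.MP_4d8715_gt.KR

open Order

theorem notLocalized {β : Idx} {x : Nm} {q : Cond} (h : NewOver β x q) :
    ∃ q', Le ⊤ q' q ∧ ∃ l, FunName β l ∧ ∀ q'' m b S, Le ⊤ q'' q' →
      (∀ k, (b k : Tm).Below β) → (∀ k i j, (S k i j : Tm).Below β) → ¬ Localized x l b S m q'' := by
  obtain ⟨ζ0, hζ0⟩ := exists_below_name x
  obtain ⟨η, ⟨q', hq', x', hx', hxx'⟩, hmin⟩ := WellFounded.has_min (wellFounded_lt (α := Idx))
    {η : Idx | ∃ q', Le ⊤ q' q ∧ ∃ x' : Nm, (∀ j, (x' j).Below η) ∧ ∀ j, EqF ⊤ (x j) (x' j) q'}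
    ⟨ζ0, q, Le.refl ⊤ q, x, hζ0, fun j r _ => Iff.rfl⟩
  have hnew : ∀ ζ < η, NewOver ζ x' q' := by
    intro ζ hζ y hy q2 hq2 heq
    refine hmin ζ ⟨q2, hq2.trans hq', y, hy, fun j => ?_⟩ hζ
    exact ((hxx' j).mono hq2).trans (heq j)
  have hβη : β < η := by
    by_contra hcon
    exact h x' (fun j => (hx' j).mono (not_lt.mp hcon)) q' hq' hxx'
  -- localization passes to `x'`
  have htrans : ∀ (l : ℕ → ℕ → Tm) (q'' : Cond) (m : ℕ) (b : ℕ → Tm) (S : ℕ → ℕ → Nm),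
      Le ⊤ q'' q' → Localized x l b S m q'' → Localized x' l b S m q'' := by
    intro l q'' m b S hq'' hL
    refine ⟨hL.1, fun k hk v r hr hb hl => ?_⟩
    obtain ⟨r', hr', i, hi, hS⟩ := hL.2 k hk v r hr hb hl
    refine ⟨r', hr', i, hi, fun j hj => ?_⟩
    exact (((hxx' j).mono ((hr'.trans hr).trans hq'')).symm).trans (hS j hj)
  rcases idx_cases η with h0 | ⟨ζ, rfl⟩ | ⟨h0, hlim⟩
  · rw [h0] at hβη
    exact absurd hβη (not_lt.mpr bot_le)
  · obtain ⟨l, hl, hno⟩ := notLocalized_succ (lt_succ_iff.mp hβη) hx'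
      (hnew ζ (lt_succ ζ))
    exact ⟨q', hq', l, hl, fun q'' m b S hq'' hb hS hL =>
      hno q'' m b S hq'' hb hS (htrans l q'' m b S hq'' hL)⟩
  · have hcof : CofOmega η := by
      by_contra hcon
      obtain ⟨ξ, hξ, hxξ⟩ := below_name_of_not_cofOmega h0 hlim hcon x' hx'
      exact hmin ξ ⟨q', hq', x', hxξ, hxx'⟩ hξ
    obtain ⟨l, hl, hno⟩ := notLocalized_lim hβη hlim hcof hx' hnew
    exact ⟨q', hq', l, hl, fun q'' m b S hq'' hb hS hL =>
      hno q'' m b S hq'' hb hS (htrans l q'' m b S hq'' hL)⟩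

end Pool.Agent.Lib.MP_4d8715_gt.KR
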