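import Pool.Agent.Lib.MP_4d8715_gt.KR.C.Cof

/-! # Splitting (module C-SPLIT)

`splitting` (S): suppose it is false for `e`. Let `D j := {r | r ≤[ζ] e ∧ Frc ⊤ (x j) (glue ζ r e)}`, closed under `≤[ζ]`, and `y j` the term
below `ζ` of `exists_term`. Claim `EqF ⊤ (x j) (y j) e` for all `j`, which contradicts `NewOver`. Let `e' ≤[⊤] e`.
(→) `e' ⊩ x j`; given `r1 ≤[ζ] e'`: `glue ζ r1 e' ⊩ x j`. If `glue ζ r1 e` does not force `x j` there is `e0 ≤[⊤] glue ζ r1 e` with `e0 ⊩ ¬ x j`; then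
  `e0` and `e1 := glue ζ e0 (glue ζ r1 e')` are a splitting. So `r1 ∈ D j`.
(←) `e' ⊩ y j`; if `e'` does not force `x j` there is `e0 ≤[⊤] e'` with `e0 ⊩ ¬ x j`; there is `r2 ≤[ζ] e0` in `D j`; `glue ζ r2 e0`, `glue ζ r2 e` are a
  splitting.
`splittings`: induction on `k` with `Fin (k+1)`: split the last condition, glue the common part into the others
(`Sep.mono`). -/

namespace Pool.Agent.Lib.MP_4d8715_gt.KR

open Order

theorem Sep.mono {x : Nm} {v v' : ℕ} {p p' q q' : Cond} (h : Sep x v p p') (hv : v ≤ v')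
    (hq : Le ⊤ q p) (hq' : Le ⊤ q' p') : Sep x v' q q' := by
  obtain ⟨j, hj, h | h⟩ := h
  · exact ⟨j, hj.trans_le hv, Or.inl ⟨h.1.mono hq, h.2.mono hq'⟩⟩
  · exact ⟨j, hj.trans_le hv, Or.inr ⟨h.1.mono hq, h.2.mono hq'⟩⟩

theorem Sep.mono_local {x : Nm} {v v' : ℕ} {p p' q q' : Cond} {η : Idx}
    (hx : ∀ j, (x j).Below η) (h : Sep x v p p') (hv : v ≤ v')
    (hq : Le (η : WithTop Idx) q p) (hq' : Le (η : WithTop Idx) q' p') : Sep x v' q q' := by
  have hn : ∀ j, (Tm.neg (x j)).Below η := hx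
  obtain ⟨j, hj, h | h⟩ := h
  · exact ⟨j, hj.trans_le hv, Or.inl ⟨h.1.mono_local (hx j) le_top hq,
      h.2.mono_local (hn j) le_top hq'⟩⟩
  · exact ⟨j, hj.trans_le hv, Or.inr ⟨h.1.mono_local (hn j) le_top hq,
      h.2.mono_local (hx j) le_top hq'⟩⟩

theorem NewOver.mono {β β' : Idx} {x : Nm} {q q' : Cond} (h : NewOver β x q) (hβ : β' ≤ β)
    (hq : Le ⊤ q' q) : NewOver β' x q' := fun y hy q'' hq'' =>
  h y (fun j => (hy j).mono hβ) q'' (hq''.trans hq)

private theorem split_glue_glue (ζ : Idx) (a b c : Cond) : glue ζ a (glue ζ b c) = glue ζ a c := by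
  apply Cond.ext
  · funext ξ
    by_cases h : ξ < ζ
    · rw [glue_st_lt _ _ h, glue_st_lt _ _ h]
    · rw [glue_st_ge _ _ (not_lt.mp h), glue_st_ge _ _ (not_lt.mp h),
        glue_st_ge _ _ (not_lt.mp h)]
  · funext ξ
    by_cases h : ξ < ζ
    · rw [glue_F_lt _ _ h, glue_F_lt _ _ h]
    · rw [glue_F_ge _ _ (not_lt.mp h), glue_F_ge _ _ (not_lt.mp h),
        glue_F_ge _ _ (not_lt.mp h)]

theorem splitting {ζ : Idx} {x : Nm} {q : Cond} (h : NewOver ζ x q) (e : Cond) (he : Le ⊤ e q) :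
    ∃ j e0 e1, Le ⊤ e0 e ∧ Le ⊤ e1 e ∧ Le (ζ : WithTop Idx) e0 e1 ∧ Le (ζ : WithTop Idx) e1 e0 ∧
      Frc ⊤ (x j) e1 ∧ Frc ⊤ (.neg (x j)) e0 := by
  by_contra hcon
  have key : ∀ j e0 e1, Le ⊤ e0 e → Le ⊤ e1 e → Le (ζ : WithTop Idx) e0 e1 →
      Le (ζ : WithTop Idx) e1 e0 → Frc ⊤ (x j) e1 → Frc ⊤ (.neg (x j)) e0 → False :=
    fun j e0 e1 h1 h2 h3 h4 h5 h6 => hcon ⟨j, e0, e1, h1, h2, h3, h4, h5, h6⟩
  have htop : (ζ : WithTop Idx) ≤ ⊤ := le_top
  have hD : ∀ j, ∀ p ∈ {r : Cond | Le (ζ : WithTop Idx) r e ∧ Frc ⊤ (x j) (glue ζ r e)}, ∀ q,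
      Le (ζ : WithTop Idx) q p →
      q ∈ {r : Cond | Le (ζ : WithTop Idx) r e ∧ Frc ⊤ (x j) (glue ζ r e)} := by
    rintro j p ⟨hp1, hp2⟩ q hq
    refine ⟨hq.trans hp1, ?_⟩
    have h1 : Le (ζ : WithTop Idx) q (glue ζ p e) := hq.trans (left_le_glue ζ p e)
    have h2 : Le ⊤ (glue ζ q (glue ζ p e)) (glue ζ p e) := glue_le ⊤ h1
    rw [split_glue_glue] at h2
    exact hp2.mono h2
  choose y hy hyiff using fun j => exists_term ζ
    {r : Cond | Le (ζ : WithTop Idx) r e ∧ Frc ⊤ (x j) (glue ζ r e)} (hD j)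
  refine h y hy e he fun j e' he' => ?_
  rw [frc_local (hy j) htop e', hyiff j e']
  constructor
  · intro hxe r1 hr1
    refine ⟨r1, Le.refl _ _, hr1.trans (he'.mono htop), ?_⟩
    by_contra hno
    obtain ⟨e0, he0, hneg⟩ := exists_neg_of_not hno
    have hr1e : Le (ζ : WithTop Idx) r1 e := hr1.trans (he'.mono htop)
    have h1 : Le ⊤ (glue ζ r1 e) e := glue_le ⊤ hr1e
    have h2 : Le ⊤ (glue ζ r1 e') e' := glue_le ⊤ hr1
    have h3 : Le (ζ : WithTop Idx) e0 (glue ζ r1 e') :=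
      ((he0.mono htop).trans (glue_le_left ζ r1 e)).trans (left_le_glue ζ r1 e')
    have h4 : Le ⊤ (glue ζ e0 (glue ζ r1 e')) (glue ζ r1 e') := glue_le ⊤ h3
    have h5 : Le ⊤ (glue ζ e0 (glue ζ r1 e')) e' := h4.trans h2
    exact key j e0 (glue ζ e0 (glue ζ r1 e')) (he0.trans h1) (h5.trans he')
      (left_le_glue ζ e0 _) (glue_le_left ζ e0 _) (hxe.mono h5) hneg
  · intro hye
    by_contra hno
    obtain ⟨e0, he0, hneg⟩ := exists_neg_of_not hno
    obtain ⟨r2, hr2, hr2e, hr2x⟩ := hye e0 (he0.mono htop)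
    exact key j (glue ζ r2 e0) (glue ζ r2 e) ((glue_le ⊤ hr2).trans (he0.trans he'))
      (glue_le ⊤ hr2e) ((glue_le_left ζ r2 e0).trans (left_le_glue ζ r2 e))
      ((glue_le_left ζ r2 e).trans (left_le_glue ζ r2 e0)) hr2x (hneg.mono (glue_le ⊤ hr2))

theorem splittings {ζ : Idx} {x : Nm} {q : Cond} (h : NewOver ζ x q) (k : ℕ) (u : Cond)
    (hu : Le ⊤ u q) : ∃ (v : ℕ) (g : Cond) (e : Fin (k + 1) → Cond), Common ζ g e ∧
      (∀ i, Le ⊤ (e i) u) ∧ ∀ i i', i ≠ i' → Sep x v (e i) (e i') := by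
  classical
  have htop : (ζ : WithTop Idx) ≤ ⊤ := le_top
  induction k with
  | zero =>
    refine ⟨0, u, fun _ => u, fun _ => ⟨Le.refl _ _, Le.refl _ _⟩, fun _ => Le.refl _ _,
      fun i i' hii => absurd (Subsingleton.elim (α := Fin 1) i i') hii⟩
  | succ k ih =>
    obtain ⟨v, g, e, hg, heu, hsep⟩ := ih
    obtain ⟨j, e0, e1, h0, h1, h01, h10, hx1, hx0⟩ := splitting h (e (Fin.last k))
      ((heu _).trans hu)
    -- the old conditions with the new common part
    obtain ⟨f, hf⟩ : ∃ f : Fin (k + 1) → Cond,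
        f = fun i => if i = Fin.last k then e1 else glue ζ e0 (e i) := ⟨_, rfl⟩
    have h0e : ∀ i, Le (ζ : WithTop Idx) e0 (e i) := fun i =>
      ((h0.mono htop).trans (hg (Fin.last k)).2).trans (hg i).1
    have hfe : ∀ i, Le ⊤ (f i) (e i) := by
      intro i
      rw [hf]
      by_cases hi : i = Fin.last k
      · simp only [if_pos hi]
        rw [hi]
        exact h1
      · simp only [if_neg hi]
        exact glue_le ⊤ (h0e i)
    have hfc : ∀ i, Le (ζ : WithTop Idx) e0 (f i) ∧ Le (ζ : WithTop Idx) (f i) e0 := by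
      intro i
      rw [hf]
      by_cases hi : i = Fin.last k
      · simp only [if_pos hi]
        exact ⟨h01, h10⟩
      · simp only [if_neg hi]
        exact ⟨left_le_glue _ _ _, glue_le_left _ _ _⟩
    have hflast : f (Fin.last k) = e1 := by rw [hf]; simp
    have hs : ∀ a b : Fin (k + 1), a ≠ b → Sep x (max v (j + 1)) (f a) (f b) := fun a b hab =>
      (hsep a b hab).mono (le_max_left _ _) (hfe a) (hfe b)
    have hs1 : ∀ b : Fin (k + 1), Sep x (max v (j + 1)) e0 (f b) := by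
      intro b
      by_cases hb : b = Fin.last k
      · rw [hb, hflast]
        exact ⟨j, lt_of_lt_of_le (Nat.lt_succ_self j) (le_max_right _ _), Or.inr ⟨hx0, hx1⟩⟩
      · exact (hsep (Fin.last k) b (Ne.symm hb)).mono (le_max_left _ _) h0 (hfe b)
    have hs2 : ∀ b : Fin (k + 1), Sep x (max v (j + 1)) (f b) e0 := by
      intro b
      by_cases hb : b = Fin.last k
      · rw [hb, hflast]
        exact ⟨j, lt_of_lt_of_le (Nat.lt_succ_self j) (le_max_right _ _), Or.inl ⟨hx1, hx0⟩⟩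
      · exact (hsep b (Fin.last k) hb).mono (le_max_left _ _) (hfe b) h0
    refine ⟨max v (j + 1), e0, Fin.snoc (α := fun _ => Cond) f e0, ?_, ?_, ?_⟩
    · intro i
      refine Fin.lastCases ?_ (fun i => ?_) i
      · rw [Fin.snoc_last]
        exact ⟨Le.refl _ _, Le.refl _ _⟩
      · rw [Fin.snoc_castSucc]
        exact hfc i
    · intro i
      refine Fin.lastCases ?_ (fun i => ?_) i
      · rw [Fin.snoc_last]
        exact h0.trans (heu _)
      · rw [Fin.snoc_castSucc]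
        exact (hfe i).trans (heu i)
    · intro i i'
      refine Fin.lastCases ?_ (fun a => ?_) i
      · refine Fin.lastCases ?_ (fun b => ?_) i'
        · intro hii
          exact absurd rfl hii
        · intro _
          rw [Fin.snoc_last, Fin.snoc_castSucc]
          exact hs1 b
      · refine Fin.lastCases ?_ (fun b => ?_) i'
        · intro _
          rw [Fin.snoc_last, Fin.snoc_castSucc]
          exact hs2 a
        · intro hii
          rw [Fin.snoc_castSucc, Fin.snoc_castSucc]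
          exact hs a b fun hab => hii (by rw [hab])

end Pool.Agent.Lib.MP_4d8715_gt.KR
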